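import Pool.Agent.Lib.MP_47f674_lc.Axioms

/-! Tight predecessors in the canonical model. -/

namespace Pool.Agent.Lib.VR82

open Classical Pool.Agent.Lib.MP_47f674_lc

theorem pt_imp (x : PT) (a b : Fm) :
    Fm.imp a b ∈ x.T ↔ ∀ y : PT, x ≤ y → a ∈ y.T → b ∈ y.T := by
  rw [← truth, force_imp]
  simp only [truth]

theorem pt_top (x : PT) : top ∈ x.T := x.th.imp_self _

theorem th_of_pt {T : Set Fm} (hT : IsTh T) {b : Fm} (h : ∀ y : PT, T ⊆ y.T → b ∈ y.T) :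
    b ∈ T := by
  by_contra hb
  obtain ⟨y, hy, hby, -⟩ := lindenbaum hT hb
  exact hby (h y hy)

theorem th_imp {T : Set Fm} (hT : IsTh T) {a b : Fm}
    (h : ∀ y : PT, T ⊆ y.T → a ∈ y.T → b ∈ y.T) : Fm.imp a b ∈ T :=
  th_of_pt hT fun y hy => (pt_imp y a b).2 fun z hz ha => h z (hy.trans hz) ha

theorem pt_antisymm {x y : PT} (h1 : x ≤ y) (h2 : y ≤ x) : x = y := by
  obtain ⟨T, _, _, _⟩ := x
  obtain ⟨U, _, _, _⟩ := y
  have : T = U := Set.Subset.antisymm h1 h2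
  subst this
  rfl

/-- Lindenbaum lemma for a directed set of formulas to be avoided. -/
theorem lind_ideal {T : Set Fm} (hT : IsTh T) (K : Set Fm) (hne : K.Nonempty)
    (hdir : ∀ a ∈ K, ∀ b ∈ K, ∃ c ∈ K, Fm.imp a c ∈ T ∧ Fm.imp b c ∈ T)
    (hd : ∀ k ∈ K, k ∉ T) :
    ∃ y : PT, T ⊆ y.T ∧ (∀ k ∈ K, k ∉ y.T) ∧
      ∀ u : PT, y ≤ u → (∀ k ∈ K, k ∉ u.T) → u ≤ y := by
  let S : Set (Set Fm) := {U | IsTh U ∧ ∀ k ∈ K, k ∉ U}
  have hS : ∀ c ⊆ S, IsChain (· ⊆ ·) c → c.Nonempty → ∃ ub ∈ S, ∀ s ∈ c, s ⊆ ub := by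
    intro c hc hch hne
    refine ⟨⋃₀ c, ⟨⟨fun h => ?_, fun {a d} h1 h2 => ?_⟩, ?_⟩,
      fun s hs => Set.subset_sUnion_of_mem hs⟩
    · obtain ⟨U, hU⟩ := hne
      exact ⟨U, hU, (hc hU).1.ax h⟩
    · obtain ⟨U1, hU1, h1⟩ := h1
      obtain ⟨U2, hU2, h2⟩ := h2
      rcases hch.total hU1 hU2 with h | h
      · exact ⟨U2, hU2, (hc hU2).1.mp (h h1) h2⟩
      · exact ⟨U1, hU1, (hc hU1).1.mp h1 (h h2)⟩
    · rintro k hk ⟨U, hU, h⟩
      exact (hc hU).2 k hk h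
  obtain ⟨m, hTm, hm⟩ := zorn_subset_nonempty S hS T ⟨hT, hd⟩
  have hmS : IsTh m ∧ ∀ k ∈ K, k ∉ m := hm.prop
  have key : ∀ a, a ∉ m → ∃ k ∈ K, Fm.imp a k ∈ m := by
    intro a ha
    by_contra hab
    push Not at hab
    have h1 : {c | Fm.imp a c ∈ m} ∈ S := ⟨hmS.1.ext a, hab⟩
    have h2 : m ⊆ {c | Fm.imp a c ∈ m} := fun c hc => hmS.1.weak a hc
    exact ha (hm.le_of_ge h1 h2 (hmS.1.imp_self a))
  obtain ⟨k0, hk0⟩ := hne
  refine ⟨⟨m, hmS.1, fun h => hmS.2 k0 hk0 (hmS.1.mp (hmS.1.ax (IPCAx.efq k0)) h),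
    fun {a c} h => ?_⟩, hTm, hmS.2, fun u hu hK => hm.le_of_ge ⟨u.th, hK⟩ hu⟩
  by_contra hn
  rw [not_or] at hn
  obtain ⟨k1, hk1, h1⟩ := key a hn.1
  obtain ⟨k2, hk2, h2⟩ := key c hn.2
  obtain ⟨k, hk, h3, h4⟩ := hdir k1 hk1 k2 hk2
  refine hmS.2 k hk (th_of_pt hmS.1 fun y hy => ?_)
  rcases y.prime (hy h) with h5 | h5
  · exact y.th.mp (hy (hTm h3)) (y.th.mp (hy h1) h5)
  · exact y.th.mp (hy (hTm h4)) (y.th.mp (hy h2) h5)

/-- `y` is a tight predecessor of the finite set `X`. -/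
def Tight (y : PT) (X : Finset PT) : Prop :=
  (∀ x ∈ X, y ≤ x) ∧ ∀ u, y ≤ u → u ≤ y ∨ ∃ x ∈ X, x ≤ u

def GG (l : List Fm) (a : Fm) : Fm := .imp (.imp (disj l) a) (disj l)

def Out (X : Finset PT) (l : List Fm) : Prop := ∀ e ∈ l, ∃ x ∈ X, e ∉ x.T

def Inn (X : Finset PT) (a : Fm) : Prop := ∀ x ∈ X, a ∈ x.T

def Hyp (r : PT) (X : Finset PT) : Prop := ∀ l a, Out X l → Inn X a → GG l a ∉ r.T

theorem Out.append {X : Finset PT} {l l' : List Fm} (h : Out X l) (h' : Out X l') :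
    Out X (l ++ l') := fun e he => (List.mem_append.1 he).elim (h e) (h' e)

theorem Inn.and {X : Finset PT} {a b : Fm} (h : Inn X a) (h' : Inn X b) : Inn X (.and a b) :=
  fun x hx => (x.and_iff a b).2 ⟨h x hx, h' x hx⟩

theorem disj_mono {l l' : List Fm} (h : ∀ e ∈ l, e ∈ l') {u : PT} (hu : disj l ∈ u.T) :
    disj l' ∈ u.T := by
  obtain ⟨e, he, h1⟩ := (u.disj_iff l).1 hu
  exact (u.disj_iff l').2 ⟨e, h e he, h1⟩

theorem imp_monoL {l l' : List Fm} {a b : Fm} {u : PT}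
    (hu : Fm.imp (disj (l ++ l')) (.and a b) ∈ u.T) : Fm.imp (disj l) a ∈ u.T :=
  (pt_imp u _ _).2 fun v hv h => ((v.and_iff a b).1 (v.th.mp (hv hu)
    (disj_mono (fun _ he => List.mem_append_left _ he) h))).1

theorem imp_monoR {l l' : List Fm} {a b : Fm} {u : PT}
    (hu : Fm.imp (disj (l ++ l')) (.and a b) ∈ u.T) : Fm.imp (disj l') b ∈ u.T :=
  (pt_imp u _ _).2 fun v hv h => ((v.and_iff a b).1 (v.th.mp (hv hu)
    (disj_mono (fun _ he => List.mem_append_right _ he) h))).2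

/-- a formula lying in every member of `X` but not in `u` -/
theorem exists_sep {X : Finset PT} {u : PT} (h : ∀ x ∈ X, ¬ x ≤ u) :
    ∃ d, Inn X d ∧ d ∉ u.T := by
  have h' : ∀ x : PT, ∃ c, x ∈ X → c ∈ x.T ∧ c ∉ u.T := by
    intro x
    by_cases hx : x ∈ X
    · obtain ⟨c, h1, h2⟩ := Set.not_subset.1 (h x hx)
      exact ⟨c, fun _ => ⟨h1, h2⟩⟩
    · exact ⟨.bot, fun h => absurd h hx⟩
  choose c hc using h'
  refine ⟨disj (X.toList.map c), fun x hx => (x.disj_iff _).2 ⟨c x,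
    List.mem_map.2 ⟨x, Finset.mem_toList.2 hx, rfl⟩, (hc x hx).1⟩, fun hu => ?_⟩
  obtain ⟨_, he, h1⟩ := (u.disj_iff _).1 hu
  obtain ⟨x, hx, rfl⟩ := List.mem_map.1 he
  exact (hc x (Finset.mem_toList.1 hx)).2 h1

theorem tp_core {r : PT} {X : Finset PT} (h : Hyp r X) : ∃ y, r ≤ y ∧ Tight y X := by
  let T0 : Set Fm := {c | ∃ l a, Out X l ∧ Inn X a ∧ Fm.imp (.imp (disj l) a) c ∈ r.T}
  have hr : r.T ⊆ T0 := fun c hc =>
    ⟨[], top, by simp [Out], fun x _ => pt_top x, r.th.weak _ hc⟩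
  have hT : IsTh T0 := by
    refine ⟨fun h => hr (r.th.ax h), ?_⟩
    rintro a b ⟨l1, a1, o1, i1, h1⟩ ⟨l2, a2, o2, i2, h2⟩
    refine ⟨l1 ++ l2, .and a1 a2, o1.append o2, i1.and i2, (pt_imp r _ _).2 fun u hu hh => ?_⟩
    exact u.th.mp (u.th.mp (hu h1) (imp_monoL hh)) (u.th.mp (hu h2) (imp_monoR hh))
  obtain ⟨y, hy, hK, hmax⟩ := lind_ideal hT {k | ∃ l, Out X l ∧ k = disj l}
    ⟨disj [], [], by simp [Out], rfl⟩ (by
      rintro _ ⟨l1, o1, rfl⟩ _ ⟨l2, o2, rfl⟩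
      exact ⟨disj (l1 ++ l2), ⟨_, o1.append o2, rfl⟩,
        th_imp hT fun u _ => disj_mono fun _ he => List.mem_append_left _ he,
        th_imp hT fun u _ => disj_mono fun _ he => List.mem_append_right _ he⟩) (by
      rintro _ ⟨l2, o2, rfl⟩ ⟨l1, a1, o1, i1, h1⟩
      refine h (l1 ++ l2) (.and a1 top) (o1.append o2) (i1.and fun x _ => pt_top x)
        ((pt_imp r _ _).2 fun u hu hh => ?_)
      exact disj_mono (fun _ he => List.mem_append_right _ he) (u.th.mp (hu h1) (imp_monoL hh)))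
  have hone : ∀ e x, x ∈ X → e ∉ x.T → Out X [e] := fun e x hx he c hc => by
    rw [List.mem_singleton.1 hc]
    exact ⟨x, hx, he⟩
  refine ⟨y, hr.trans hy, fun x hx e he => ?_, fun u hu => ?_⟩
  · by_contra hn
    exact hK _ ⟨[e], hone e x hx hn, rfl⟩ ((y.disj_iff _).2 ⟨e, by simp, he⟩)
  · by_contra hn
    push Not at hn
    obtain ⟨d, hd1, hd2⟩ := exists_sep hn.2
    refine hn.1 (hmax u hu ?_)
    rintro _ ⟨l, o, rfl⟩ hl
    exact hd2 (u.th.mp (hu (hy ⟨l, d, o, hd1, r.th.imp_self _⟩)) hl)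

theorem hyp_empty (r : PT) : Hyp r ∅ := by
  intro l a o _ h
  have hl : l = [] := by
    cases l with
    | nil => rfl
    | cons e l => simpa using o e List.mem_cons_self
  subst hl
  exact r.cons (r.th.mp h (r.th.ax (IPCAx.efq a)))

theorem Tight.imp_iff {y : PT} {X : Finset PT} (h : Tight y X) (a b : Fm) :
    Fm.imp a b ∈ y.T ↔ (∀ x ∈ X, Fm.imp a b ∈ x.T) ∧ (a ∈ y.T → b ∈ y.T) := by
  refine ⟨fun H => ⟨fun x hx => h.1 x hx H, y.th.mp H⟩, fun H => (pt_imp y a b).2 fun u hu ha => ?_⟩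
  rcases h.2 u hu with h1 | ⟨x, hx, h1⟩
  · exact hu (H.2 (h1 ha))
  · exact u.th.mp (h1 (H.1 x hx)) ha

theorem tight_slash (X : Finset PT) : Tight (slashPT (X : Set PT)) X := by
  refine ⟨fun x hx => slashPT_le _ hx, fun u hu => ?_⟩
  by_contra hn
  push Not at hn
  obtain ⟨d, hd1, hd2⟩ := exists_sep hn.2
  obtain ⟨a, ha1, ha2⟩ := Set.not_subset.1 hn.1
  exact hd2 (u.th.mp (hu ((slashPT_imp _ a d).2
    ⟨fun x hx => x.th.weak a (hd1 x hx), fun h => absurd h ha2⟩)) ha1)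

def vRuleC (c : Fm) (l : List Fm) (a : Fm) : Fm :=
  .or c (disj (l.map fun e => Fm.imp (.imp (disj l) a) e))

theorem vRule_ipc (c : Fm) (l : List Fm) (a : Fm) :
    Admissible IPC [.or c (GG l a)] (vRuleC c l a) := by
  intro σ hP
  have hP : Deriv ∅ ((Fm.or c (GG l a)).subst σ) := hP _ List.mem_cons_self
  by_contra hC
  obtain ⟨x, -, hx⟩ := exists_pt (X := ∅) (b := (vRuleC c l a).subst σ) hC
  simp only [vRuleC, Fm.subst, x.or_iff, not_or, subst_disj, x.disj_iff, List.map_map,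
    List.mem_map, Function.comp] at hx
  obtain ⟨hx1, hx2⟩ := hx
  let β : Fm := .imp (disj (l.map (Fm.subst σ))) (a.subst σ)
  let S : Set PT := {y | β ∈ y.T}
  let z := slashPT S
  have hz : disj (l.map (Fm.subst σ)) ∉ z.T := by
    intro h
    obtain ⟨_, he, h1⟩ := (z.disj_iff _).1 h
    obtain ⟨e, he', rfl⟩ := List.mem_map.1 he
    refine hx2 ⟨_, ⟨e, he', rfl⟩, (pt_imp x _ _).2 fun y _ hy => slashPT_le S hy h1⟩
  have hβ : β ∈ z.T := (slashPT_imp S _ _).2 ⟨fun y hy => hy, fun h => absurd h hz⟩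
  let x' := slashPT {x, z}
  have h1 : (Fm.or c (GG l a)).subst σ ∈ x'.T := x'.th.deriv (by simp) hP
  simp only [GG, Fm.subst, x'.or_iff, subst_disj] at h1
  rcases h1 with h1 | h1
  · exact hx1 (slashPT_le {x, z} (y := x) (by simp) h1)
  · exact hz (z.th.mp (slashPT_le {x, z} (y := z) (by simp) h1) hβ)

/-- The offspring property of the canonical model of `L`. -/
def Off (L : Set Fm) : Prop :=
  ∀ (r : PT) (X : Finset PT), L ⊆ r.T → (∀ x ∈ X, r ≤ x) →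
    ∃ y r' : PT, L ⊆ r'.T ∧ r' ≤ r ∧ r' ≤ y ∧ Tight y X

theorem off_of_adm {L : Set Fm} (hL : IsTh L)
    (h : ∀ Γ B, Admissible IPC Γ B → Admissible L Γ B) : Off L := by
  intro r X hr hX
  obtain ⟨r', h1, hK, -⟩ := lind_ideal hL
    {k | ∃ c l a, c ∉ r.T ∧ Out X l ∧ Inn X a ∧ k = .or c (GG l a)}
    ⟨_, .bot, [], top, r.cons, by simp [Out], fun x _ => pt_top x, rfl⟩ (by
      rintro _ ⟨c1, l1, a1, n1, o1, i1, rfl⟩ _ ⟨c2, l2, a2, n2, o2, i2, rfl⟩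
      refine ⟨_, ⟨.or c1 c2, l1 ++ l2, .and a1 a2, fun h => (r.prime h).elim n1 n2, o1.append o2,
        i1.and i2, rfl⟩, th_imp hL fun u _ hu => ?_, th_imp hL fun u _ hu => ?_⟩
      · rw [u.or_iff, u.or_iff]
        refine (u.prime hu).imp Or.inl fun h => (pt_imp u _ _).2 fun v hv hh => ?_
        exact disj_mono (fun _ he => List.mem_append_left _ he) (v.th.mp (hv h) (imp_monoL hh))
      · rw [u.or_iff, u.or_iff]
        refine (u.prime hu).imp Or.inr fun h => (pt_imp u _ _).2 fun v hv hh => ?_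
        exact disj_mono (fun _ he => List.mem_append_right _ he) (v.th.mp (hv h) (imp_monoR hh)))
    (by
      rintro _ ⟨c, l, a, n, o, i, rfl⟩ hk
      have h2 := h _ _ (vRule_ipc c l a) Fm.var (by simpa [subst_var] using hk)
      rw [subst_var] at h2
      rcases r.prime (hr h2) with h3 | h3
      · exact n h3
      · obtain ⟨_, he, h4⟩ := (r.disj_iff _).1 h3
        obtain ⟨e, he', rfl⟩ := List.mem_map.1 he
        obtain ⟨x, hx, hex⟩ := o e he'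
        exact hex (x.th.mp (hX x hx h4) (x.th.weak _ (i x hx))))
  have hle : r' ≤ r := fun c hc => by
    by_contra hn
    exact hK _ ⟨c, [], top, hn, by simp [Out], fun x _ => pt_top x, rfl⟩
      ((r'.or_iff _ _).2 (Or.inl hc))
  obtain ⟨y, hy, ht⟩ := tp_core (r := r') (X := X) fun l a o i hG =>
    hK _ ⟨.bot, l, a, r.cons, o, i, rfl⟩ ((r'.or_iff _ _).2 (Or.inr hG))
  exact ⟨y, r', h1, hle, hy, ht⟩

end Pool.Agent.Lib.VR82
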