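import Pool.Agent.Lib.VR82.A

/-! Types, revaluation of a tight predecessor, and the two completeness lemmas. -/

namespace Pool.Agent.Lib.VR82

open Classical Pool.Agent.Lib.MP_47f674_lc

def ty (σ : ℕ → Fm) (x : PT) : Set Fm := {B | B.subst σ ∈ x.T}

def meet (σ : ℕ → Fm) (X : Finset PT) : Set Fm := {B | ∀ x ∈ X, B.subst σ ∈ x.T}

structure Cl (l : List Fm) : Prop where
  and : ∀ {a b}, Fm.and a b ∈ l → a ∈ l ∧ b ∈ l
  or : ∀ {a b}, Fm.or a b ∈ l → a ∈ l ∧ b ∈ l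
  imp : ∀ {a b}, Fm.imp a b ∈ l → a ∈ l ∧ b ∈ l

/-- `t` is the type (on `l`) of a tight predecessor of points whose types meet in `I`. -/
structure Loc (l : List Fm) (t I : Set Fm) : Prop where
  sub : ∀ a ∈ l, a ∈ t → a ∈ I
  bot : Fm.bot ∈ l → Fm.bot ∉ t
  and : ∀ a b, Fm.and a b ∈ l → (Fm.and a b ∈ t ↔ a ∈ t ∧ b ∈ t)
  or : ∀ a b, Fm.or a b ∈ l → (Fm.or a b ∈ t ↔ a ∈ t ∨ b ∈ t)
  imp : ∀ a b, Fm.imp a b ∈ l → (Fm.imp a b ∈ t ↔ Fm.imp a b ∈ I ∧ (a ∈ t → b ∈ t))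

def Agree (l : List Fm) (t t' : Set Fm) : Prop := ∀ a ∈ l, (a ∈ t ↔ a ∈ t')

theorem Agree.symm {l : List Fm} {t t' : Set Fm} (h : Agree l t t') : Agree l t' t :=
  fun a ha => (h a ha).symm

theorem Agree.rfl' (l : List Fm) (t : Set Fm) : Agree l t t := fun _ _ => Iff.rfl

theorem Agree.inter {l : List Fm} {t t' s s' : Set Fm} (h : Agree l t t') (h' : Agree l s s') :
    Agree l (t ∩ s) (t' ∩ s') := fun a ha => and_congr (h a ha) (h' a ha)

theorem Loc.congr {l : List Fm} (hl : Cl l) {t t' I I' : Set Fm} (h : Loc l t I)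
    (h1 : Agree l t t') (h2 : Agree l I I') : Loc l t' I' where
  sub a ha H := (h2 a ha).1 (h.sub a ha ((h1 a ha).2 H))
  bot hb H := h.bot hb ((h1 _ hb).2 H)
  and a b H := by rw [← h1 _ H, ← h1 a (hl.and H).1, ← h1 b (hl.and H).2, h.and a b H]
  or a b H := by rw [← h1 _ H, ← h1 a (hl.or H).1, ← h1 b (hl.or H).2, h.or a b H]
  imp a b H := by
    rw [← h1 _ H, ← h1 a (hl.imp H).1, ← h1 b (hl.imp H).2, ← h2 _ H, h.imp a b H]

theorem Loc.unique {l : List Fm} (hl : Cl l) {t t' I : Set Fm} (h : Loc l t I) (h' : Loc l t' I)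
    (hv : ∀ p, Fm.var p ∈ l → (Fm.var p ∈ t ↔ Fm.var p ∈ t')) : Agree l t t' := by
  intro a
  induction a with
  | var p => exact hv p
  | bot => exact fun H => iff_of_false (h.bot H) (h'.bot H)
  | and a b iha ihb =>
    intro H
    rw [h.and a b H, h'.and a b H, iha (hl.and H).1, ihb (hl.and H).2]
  | or a b iha ihb =>
    intro H
    rw [h.or a b H, h'.or a b H, iha (hl.or H).1, ihb (hl.or H).2]
  | imp a b iha ihb =>
    intro H
    rw [h.imp a b H, h'.imp a b H, iha (hl.imp H).1, ihb (hl.imp H).2]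

theorem Tight.loc {y : PT} {X : Finset PT} (h : Tight y X) (l : List Fm) (σ : ℕ → Fm) :
    Loc l (ty σ y) (meet σ X) where
  sub _ _ H x hx := h.1 x hx H
  bot _ := y.cons
  and _ _ _ := y.and_iff _ _
  or _ _ _ := y.or_iff _ _
  imp _ _ _ := h.imp_iff _ _

def Bad (l : List Fm) (A : Fm) (t I : Set Fm) : Prop :=
  ∃ t1 t2 : Set Fm, Loc l t1 I ∧ Loc l t2 (t ∩ t1) ∧ A ∉ t2

theorem Bad.congr {l : List Fm} (hl : Cl l) {A : Fm} {t t' I I' : Set Fm} (h : Bad l A t I)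
    (h1 : Agree l t t') (h2 : Agree l I I') : Bad l A t' I' := by
  obtain ⟨t1, t2, a, b, c⟩ := h
  exact ⟨t1, t2, a.congr hl (Agree.rfl' _ _) h2,
    b.congr hl (Agree.rfl' _ _) (h1.inter (Agree.rfl' _ _)), c⟩

theorem ty_congr {σ σ' : ℕ → Fm} {f : PT}
    (h : ∀ u, f ≤ u → ∀ p, (σ' p ∈ u.T ↔ σ p ∈ u.T)) : ty σ' f = ty σ f := by
  ext B
  simp only [ty, Set.mem_ofPred_eq, ← truth, force_subst]
  exact force_congr B f fun u hu p => by simpa only [truth] using h u hu p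

theorem meet_congr {σ σ' : ℕ → Fm} {X : Finset PT} (h : ∀ x ∈ X, ty σ' x = ty σ x) :
    meet σ' X = meet σ X := by
  ext B
  exact forall₂_congr fun x hx => Set.ext_iff.1 (h x hx) B

/-- Revaluation of a tight predecessor. -/
theorem reval {l : List Fm} (hl : Cl l) {y : PT} {X F : Finset PT} {σ : ℕ → Fm} {t : Set Fm}
    (ht : Tight y X) (hXF : X ⊆ F) (hF : ∀ f ∈ F, ¬ f ≤ y) (hloc : Loc l t (meet σ X)) :
    ∃ σ', (∀ f ∈ F, ty σ' f = ty σ f) ∧ Agree l (ty σ' y) t := by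
  obtain ⟨d, hd1, hd2⟩ := exists_sep hF
  let σ' : ℕ → Fm := fun p =>
    if Fm.var p ∈ l ∧ Fm.var p ∈ t then .imp d (σ p) else .and (σ p) d
  have h1 : ∀ f ∈ F, ty σ' f = ty σ f := by
    intro f hf
    refine ty_congr fun u hu p => ?_
    have hdu : d ∈ u.T := hu (hd1 f hf)
    simp only [σ']
    split_ifs
    · exact ⟨fun h => u.th.mp h hdu, u.th.weak d⟩
    · rw [u.and_iff]
      exact and_iff_left hdu
  refine ⟨σ', h1, Loc.unique hl (I := meet σ X) ?_ hloc fun p hp => ?_⟩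
  · rw [← meet_congr fun x hx => h1 x (hXF hx)]
    exact ht.loc l σ'
  · change σ' p ∈ y.T ↔ _
    simp only [σ']
    split_ifs with h
    · refine iff_of_true ((pt_imp y _ _).2 fun u hu hdu => ?_) h.2
      rcases ht.2 u hu with h2 | ⟨x, hx, h2⟩
      · exact absurd (h2 hdu) hd2
      · exact h2 (hloc.sub _ hp h.2 x hx)
    · exact iff_of_false (fun H => hd2 ((y.and_iff _ _).1 H).2) fun H => h ⟨hp, H⟩

section
variable {L : Set Fm} {l : List Fm} {A : Fm}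

theorem fin_step (hoff : Off L) (hA : ∀ σ, A.subst σ ∈ L) (hl : Cl l) (hAl : A ∈ l)
    {w y r : PT} {X F : Finset PT} {σ : ℕ → Fm} (hw : w ∈ F) (hXF : X ⊆ F) (ht : Tight y X)
    (hF : ∀ f ∈ F, ¬ f ≤ y) (hyw : ¬ y ≤ w) (hr : L ⊆ r.T) (hrw : r ≤ w) (hry : r ≤ y) :
    ¬ Bad l A (ty σ w) (meet σ X) := by
  rintro ⟨t1, t2, h1, h2, h3⟩
  obtain ⟨σ1, e1, e2⟩ := reval hl ht hXF hF h1
  obtain ⟨z, r', hr', -, hz, htz⟩ := hoff r {w, y} hr (by simp [hrw, hry])
  have hzw : z ≤ w := htz.1 w (by simp)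
  have hzy : z ≤ y := htz.1 y (by simp)
  obtain ⟨σ2, -, e4⟩ := reval hl (σ := σ1) (t := t2) htz (subset_refl _) (by
      intro f hf
      rcases Finset.mem_insert.1 hf with rfl | hf
      · exact fun h => hF f hw (h.trans hzy)
      · rw [Finset.mem_singleton.1 hf]
        exact fun h => hyw (h.trans hzw))
    (h2.congr hl (Agree.rfl' _ _) fun a ha => by
      have := e2 a ha
      rw [← e1 w hw]
      simp only [meet, ty, Set.mem_inter_iff, Set.mem_ofPred_eq, Finset.mem_insert,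
        Finset.mem_singleton, forall_eq_or_imp, forall_eq] at this ⊢
      rw [this])
  exact h3 ((e4 A hAl).1 (hz (hr' (hA σ2))))

/-- If no tight predecessor of `X` lies above `w`, the pattern is not bad. -/
theorem narrow (hoff : Off L) (hA : ∀ σ, A.subst σ ∈ L) (hl : Cl l) (hAl : A ∈ l)
    {w : PT} {X : Finset PT} (σ : ℕ → Fm) (hw : L ⊆ w.T) (hX : ∀ x ∈ X, w ≤ x)
    (hno : ∀ y, w ≤ y → ¬ Tight y X) : ¬ Bad l A (ty σ w) (meet σ X) := by
  obtain ⟨y, r, hr, hrw, hry, ht⟩ := hoff w X hw hX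
  have key : ∀ x ∈ X, ¬ ∀ x' ∈ X, x ≤ x' := fun x hx h =>
    hno x (hX x hx) ⟨h, fun u hu => Or.inr ⟨x, hx, hu⟩⟩
  refine fin_step hoff hA hl hAl (F := insert w X) (Finset.mem_insert_self _ _)
    (Finset.subset_insert _ _) ht (fun f hf h => ?_) (fun h => ?_) hr hrw hry
  · rcases Finset.mem_insert.1 hf with rfl | hf
    · exact hno y h ht
    · exact key f hf fun x' hx' => h.trans (ht.1 x' hx')
  · rcases ht.2 w h with h1 | ⟨x, hx, h1⟩
    · exact hno y h1 ht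
    · exact key x hx fun x' hx' => h1.trans (hX x' hx')

noncomputable def sz (l : List Fm) (σ : ℕ → Fm) (x : PT) : ℕ :=
  (l.toFinset.filter fun B => B.subst σ ∈ x.T).card

def Wit (l : List Fm) (σ : ℕ → Fm) (Z : Finset PT) : Prop :=
  ∀ x ∈ Z, ∀ a b, Fm.imp a b ∈ l → Fm.imp a b ∉ ty σ x → (a ∈ ty σ x ∧ b ∉ ty σ x) ∨
    ∃ x' ∈ Z, x ≤ x' ∧ Fm.imp a b ∉ ty σ x' ∧ sz l σ x < sz l σ x'

theorem exists_wit (hl : Cl l) (σ : ℕ → Fm) : ∀ (d : ℕ) (w : PT),
    l.toFinset.card ≤ sz l σ w + d → ∃ Z : Finset PT, w ∈ Z ∧ Z.card ≤ (l.length + 1) ^ d ∧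
      (∀ x ∈ Z, w ≤ x) ∧ Wit l σ Z := by
  intro d
  induction d with
  | zero =>
    intro w hw
    refine ⟨{w}, by simp, by simp, by simp, fun x hx a b hab hn => ?_⟩
    rw [Finset.mem_singleton.1 hx] at hn
    have := Finset.eq_of_subset_of_card_le
      (Finset.filter_subset (fun B : Fm => B.subst σ ∈ w.T) l.toFinset) hw
    have h2 : Fm.imp a b ∈ l.toFinset := List.mem_toFinset.2 hab
    rw [← this] at h2
    exact absurd (Finset.mem_filter.1 h2).2 hn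
  | succ d ih =>
    intro w hw
    have key : ∀ c : Fm, ∃ Z : Finset PT, Z.card ≤ (l.length + 1) ^ d ∧ (∀ x ∈ Z, w ≤ x) ∧
        Wit l σ Z ∧ ∀ a b, c = .imp a b → c ∈ l → c ∉ ty σ w → a ∉ ty σ w →
          ∃ x' ∈ Z, c ∉ ty σ x' ∧ sz l σ w < sz l σ x' := by
      intro c
      by_cases h : ∃ a b, c = .imp a b ∧ c ∈ l ∧ c ∉ ty σ w ∧ a ∉ ty σ w
      · obtain ⟨a, b, rfl, h1, h2, h3⟩ := h
        have h4 := mt (pt_imp w (a.subst σ) (b.subst σ)).2 h2
        push Not at h4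
        obtain ⟨x, hx, ha, hb⟩ := h4
        have hlt : sz l σ w < sz l σ x := by
          refine Finset.card_lt_card ⟨fun B hB => ?_, fun H => h3 ?_⟩
          · exact Finset.mem_filter.2 ⟨(Finset.mem_filter.1 hB).1, hx (Finset.mem_filter.1 hB).2⟩
          · exact (Finset.mem_filter.1 (H (Finset.mem_filter.2
              ⟨List.mem_toFinset.2 (hl.imp h1).1, ha⟩))).2
        obtain ⟨Z, z1, z2, z3, z4⟩ := ih x (by omega)
        exact ⟨Z, z2, fun u hu => hx.trans (z3 u hu), z4,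
          fun _ _ _ _ _ _ => ⟨x, z1, fun H => hb (x.th.mp H ha), hlt⟩⟩
      · exact ⟨∅, by simp, by simp, by simp [Wit],
          fun a b h1 h2 h3 h4 => absurd ⟨a, b, h1, h2, h3, h4⟩ h⟩
    choose Z z1 z2 z3 z4 using key
    refine ⟨insert w (l.toFinset.biUnion Z), by simp, ?_, ?_, ?_⟩
    · have h1 := Finset.card_insert_le w (l.toFinset.biUnion Z)
      have h2 := Finset.card_biUnion_le_card_mul l.toFinset Z _ fun c _ => z1 c
      have h3 := Nat.mul_le_mul_right ((l.length + 1) ^ d) (List.toFinset_card_le l)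
      have h4 : 0 < (l.length + 1) ^ d := by positivity
      rw [pow_succ]
      nlinarith
    · intro x hx
      rcases Finset.mem_insert.1 hx with rfl | hx
      · exact le_rfl
      · obtain ⟨c, -, hc⟩ := Finset.mem_biUnion.1 hx
        exact z2 c x hc
    · intro x hx a b hab hn
      rcases Finset.mem_insert.1 hx with rfl | hx
      · by_cases ha : a ∈ ty σ x
        · exact Or.inl ⟨ha, fun hb => hn (x.th.weak _ hb)⟩
        · obtain ⟨x', h1, h2, h3⟩ := z4 _ a b rfl hab hn ha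
          exact Or.inr ⟨x', Finset.mem_insert_of_mem (Finset.mem_biUnion.2
            ⟨_, List.mem_toFinset.2 hab, h1⟩), z2 _ _ h1, h2, h3⟩
      · obtain ⟨c, hc, hxc⟩ := Finset.mem_biUnion.1 hx
        refine (z3 c x hxc a b hab hn).imp id ?_
        rintro ⟨x', h1, h2⟩
        exact ⟨x', Finset.mem_insert_of_mem (Finset.mem_biUnion.2 ⟨c, hc, h1⟩), h2⟩

/-- State of the rebuilding construction. -/
structure Inv (L : Set Fm) (l : List Fm) (σ : ℕ → Fm) (S T Z Y D : Finset PT) (m0 : PT)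
    (σ' : ℕ → Fm) (F : Finset PT) (r : PT) (U : Finset PT) : Prop where
  hr : L ⊆ r.T
  hrF : ∀ f ∈ F, r ≤ f
  hSF : S ⊆ F
  hσ : ∀ s ∈ S, ty σ' s = ty σ s
  hU : U ⊆ T
  hm : m0 ∉ U
  hF : ∀ f ∈ F, f ∈ S ∨ ∀ m ∈ U, ¬ f ≤ m
  hc : ∀ x ∈ Z, (x ∉ Y ∨ x ∈ D) → ∃ f ∈ F, Agree l (ty σ' f) (ty σ x) ∧ (∀ m ∈ U, ¬ f ≤ m) ∧
    (x ∈ Y → ∀ s ∈ S, ¬ s ≤ f)
  hn : T.card ≤ U.card + D.card + 1

theorem rebuild (hoff : Off L) (hl : Cl l) {σ : ℕ → Fm} {w m0 : PT} {S T Z Y : Finset PT}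
    (hw : L ⊆ w.T) (hS : ∀ s ∈ S, w ≤ s) (anti : ∀ s ∈ S, ∀ s' ∈ S, s ≤ s' → s = s')
    (hZ : ∀ x ∈ Z, w ≤ x) (hW : Wit l σ Z) (hTS : T ⊆ S) (hYZ : Y ⊆ Z) (hm0 : m0 ∈ T)
    (hY : ∀ x ∈ Z, ∀ s ∈ T, (x ∈ Y ↔ x ≤ s)) (hT : Y.card + 2 ≤ T.card) (D : Finset PT) :
    D ⊆ Y → (∀ x ∈ D, ∀ x' ∈ Y, sz l σ x < sz l σ x' → x' ∈ D) →
      ∃ σ' F r U, Inv L l σ S T Z Y D m0 σ' F r U := by
  induction D using Finset.induction_on_min_value (sz l σ) with
  | empty =>
    intro _ _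
    have hsm : ∀ x ∈ Z, x ∉ Y → ∀ m ∈ T.erase m0, ¬ x ≤ m := fun x hx hn m hm h =>
      hn ((hY x hx m (Finset.mem_of_mem_erase hm)).2 h)
    refine ⟨σ, S ∪ (Z \ Y), w, T.erase m0, hw, fun f hf => ?_, Finset.subset_union_left,
      fun _ _ => rfl, Finset.erase_subset _ _, by simp, fun f hf => ?_, fun x hx h => ?_, ?_⟩
    · rcases Finset.mem_union.1 hf with h | h
      · exact hS f h
      · exact hZ f (Finset.mem_sdiff.1 h).1
    · exact (Finset.mem_union.1 hf).imp id fun h =>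
        hsm f (Finset.mem_sdiff.1 h).1 (Finset.mem_sdiff.1 h).2
    · have hn : x ∉ Y := by simpa using h
      exact ⟨x, Finset.mem_union_right _ (Finset.mem_sdiff.2 ⟨hx, hn⟩), Agree.rfl' _ _,
        hsm x hx hn, fun h => absurd h hn⟩
    · rw [Finset.card_erase_of_mem hm0]
      simp only [Finset.card_empty]
      omega
  | insert a D haD hmin ih =>
    intro hDY hcl
    have haY : a ∈ Y := hDY (Finset.mem_insert_self _ _)
    obtain ⟨σ', F, r, U, I⟩ := ih ((Finset.subset_insert _ _).trans hDY) (fun x hx x' hx' h => by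
      rcases Finset.mem_insert.1 (hcl x (Finset.mem_insert_of_mem hx) x' hx' h) with rfl | h1
      · exact absurd (hmin x hx) (by omega)
      · exact h1)
    have hcard := Finset.card_le_card hDY
    rw [Finset.card_insert_of_notMem haD] at hcard
    obtain ⟨m, hm⟩ : U.Nonempty := Finset.card_pos.1 (by have := I.hn; omega)
    have hmT := I.hU hm
    have hmm : m ≠ m0 := fun h => I.hm (h ▸ hm)
    let X := F.filter fun f => (∀ B ∈ l, B ∈ ty σ a → B ∈ ty σ' f) ∧ ∀ m' ∈ U.erase m, ¬ f ≤ m'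
    have hmem : ∀ s ∈ T, s ∉ U.erase m → s ∈ X := fun s hs hn =>
      Finset.mem_filter.2 ⟨I.hSF (hTS hs), fun B _ hB => by
        rw [I.hσ s (hTS hs)]
        exact (hY a (hYZ haY) s hs).1 haY hB, fun m' hm' h =>
        hn (anti s (hTS hs) m' (hTS (I.hU (Finset.mem_of_mem_erase hm'))) h ▸ hm')⟩
    have hmX : m ∈ X := hmem m hmT (by simp)
    have hm0X : m0 ∈ X := hmem m0 hm0 fun h => I.hm (Finset.mem_of_mem_erase h)
    obtain ⟨y, r', hr', hrr, hry, ht⟩ := hoff r X I.hr fun x hx =>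
      I.hrF x (Finset.mem_filter.1 hx).1
    have hS2 : ∀ s ∈ S, ¬ s ≤ y := fun s hs h =>
      hmm ((anti s hs m (hTS hmT) (h.trans (ht.1 m hmX))).symm.trans
        (anti s hs m0 (hTS hm0) (h.trans (ht.1 m0 hm0X))))
    have hFy : ∀ f ∈ F, ¬ f ≤ y := fun f hf h =>
      (I.hF f hf).elim (fun hs => hS2 f hs h) fun H => H m hm (h.trans (ht.1 m hmX))
    have hloc : Loc l (ty σ a) (meet σ' X) := by
      have hsub : ∀ B ∈ l, B ∈ ty σ a → B ∈ meet σ' X := fun B hB h x hx =>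
        (Finset.mem_filter.1 hx).2.1 B hB h
      refine ⟨hsub, fun _ => a.cons, fun _ _ _ => a.and_iff _ _, fun _ _ _ => a.or_iff _ _,
        fun b c hbc => ⟨fun h => ⟨hsub _ hbc h, a.th.mp h⟩, fun h => ?_⟩⟩
      by_contra hn
      rcases hW a (hYZ haY) b c hbc hn with h1 | ⟨x', hx', h1, h2, h3⟩
      · exact h1.2 (h.2 h1.1)
      · obtain ⟨f, hf, f1, f2, -⟩ := I.hc x' hx' (by
          by_cases hx : x' ∈ Y
          · rcases Finset.mem_insert.1 (hcl a (Finset.mem_insert_self _ _) x' hx h3) with rfl | h4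
            · exact absurd h3 (lt_irrefl _)
            · exact Or.inr h4
          · exact Or.inl hx)
        exact h2 ((f1 _ hbc).1 (h.1 f (Finset.mem_filter.2 ⟨hf,
          fun B hB H => (f1 B hB).2 (h1 H), fun m' hm' => f2 m' (Finset.mem_of_mem_erase hm')⟩)))
    obtain ⟨σ2, e1, e2⟩ := reval hl ht (Finset.filter_subset _ _) hFy hloc
    have hyU : ∀ m' ∈ U.erase m, ¬ y ≤ m' := by
      intro m' hm' h
      rcases ht.2 m' h with h1 | ⟨x, hx, h1⟩
      · exact hS2 m' (hTS (I.hU (Finset.mem_of_mem_erase hm'))) h1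
      · exact (Finset.mem_filter.1 hx).2.2 m' hm' h1
    refine ⟨σ2, insert y F, r', U.erase m, hr', fun f hf => ?_,
      I.hSF.trans (Finset.subset_insert _ _), fun s hs => (e1 s (I.hSF hs)).trans (I.hσ s hs),
      (Finset.erase_subset _ _).trans I.hU, fun h => I.hm (Finset.mem_of_mem_erase h),
      fun f hf => ?_, fun x hx h => ?_, ?_⟩
    · rcases Finset.mem_insert.1 hf with rfl | hf
      · exact hry
      · exact hrr.trans (I.hrF f hf)
    · rcases Finset.mem_insert.1 hf with rfl | hf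
      · exact Or.inr hyU
      · exact (I.hF f hf).imp id fun H m' hm' => H m' (Finset.mem_of_mem_erase hm')
    · by_cases hxa : x = a
      · subst hxa
        exact ⟨y, Finset.mem_insert_self _ _, e2, hyU, fun _ => hS2⟩
      · obtain ⟨f, hf, f1, f2, f3⟩ := I.hc x hx
          (h.imp id fun h => (Finset.mem_insert.1 h).resolve_left hxa)
        exact ⟨f, Finset.mem_insert_of_mem hf, by rw [e1 f hf]; exact f1,
          fun m' hm' => f2 m' (Finset.mem_of_mem_erase hm'), f3⟩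
    · have := I.hn
      have h0 := Finset.card_pos.2 ⟨m, hm⟩
      rw [Finset.card_erase_of_mem hm, Finset.card_insert_of_notMem haD]
      omega

def bnd (n : ℕ) : ℕ := 2 ^ (n + 1) ^ n * ((n + 1) ^ n + 1)

/-- A pattern realised by a large antichain is not bad. -/
theorem wide (hoff : Off L) (hA : ∀ σ, A.subst σ ∈ L) (hl : Cl l) (hAl : A ∈ l)
    {w : PT} {S : Finset PT} (σ : ℕ → Fm) (hw : L ⊆ w.T) (hS : ∀ s ∈ S, w ≤ s)
    (anti : ∀ s ∈ S, ∀ s' ∈ S, s ≤ s' → s = s') (hc : bnd l.length < S.card) :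
    ¬ Bad l A (ty σ w) (meet σ S) := by
  obtain ⟨Z, hwZ, hZc, hZ, hW⟩ := exists_wit hl σ l.length w
    ((List.toFinset_card_le l).trans (Nat.le_add_left _ _))
  obtain ⟨Y, hY, hT⟩ := Finset.exists_lt_card_fiber_of_mul_lt_card_of_maps_to
    (s := S) (t := Z.powerset) (f := fun s => Z.filter fun x => x ≤ s)
    (n := (l.length + 1) ^ l.length + 1)
    (fun s _ => Finset.mem_powerset.2 (Finset.filter_subset _ _)) (by
      rw [Finset.card_powerset]
      exact lt_of_le_of_lt (Nat.mul_le_mul_right _ (Nat.pow_le_pow_right (by omega) hZc)) hc)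
  have hYZ := Finset.mem_powerset.1 hY
  set T := S.filter fun s => (Z.filter fun x => x ≤ s) = Y with hTdef
  have hTS : T ⊆ S := Finset.filter_subset _ _
  have hYT : ∀ x ∈ Z, ∀ s ∈ T, (x ∈ Y ↔ x ≤ s) := fun x hx s hs => by
    rw [← (Finset.mem_filter.1 hs).2, Finset.mem_filter]
    exact and_iff_right hx
  have hYc := Finset.card_le_card hYZ
  obtain ⟨m0, hm0⟩ : T.Nonempty := Finset.card_pos.1 (by omega)
  obtain ⟨σ', F, r, U, I⟩ := rebuild hoff hl hw hS anti hZ hW hTS hYZ hm0 hYT (by omega) Y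
    (subset_refl _) fun _ _ _ h _ => h
  have hwY : w ∈ Y := (hYT w hwZ m0 hm0).2 (hS m0 (hTS hm0))
  obtain ⟨f, hf, f1, f2, f3⟩ := I.hc w hwZ (Or.inr hwY)
  obtain ⟨m, hm⟩ : U.Nonempty := Finset.card_pos.1 (by have := I.hn; omega)
  have hmS := hTS (I.hU hm)
  obtain ⟨y, r', hr', hrr, hry, ht⟩ := hoff r S I.hr fun x hx => I.hrF x (I.hSF hx)
  have hFy : ∀ g ∈ F, ¬ g ≤ y := fun g hg h =>
    (I.hF g hg).elim (fun hs => I.hm (((anti g hs m hmS (h.trans (ht.1 m hmS))).symm.trans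
      (anti g hs m0 (hTS hm0) (h.trans (ht.1 m0 (hTS hm0))))) ▸ hm))
      fun H => H m hm (h.trans (ht.1 m hmS))
  intro hB
  refine fin_step hoff hA hl hAl (σ := σ') hf I.hSF ht hFy (fun h => ?_) hr'
    (hrr.trans (I.hrF f hf)) hry (hB.congr hl f1.symm ?_)
  · rcases ht.2 f h with h1 | ⟨s, hs, h1⟩
    · exact hFy f hf h1
    · exact f3 hwY s hs h1
  · rw [meet_congr I.hσ]
    exact Agree.rfl' _ _

end

end Pool.Agent.Lib.VR82
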