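import Pool.Agent.Lib.VR82.B

/-! The offspring property gives all IPC-admissible rules. -/

namespace Pool.Agent.Lib.VR82

open Classical Pool.Agent.Lib.MP_47f674_lc

theorem ext_of_tight {S : Finset Fm} (hS : SubCl S) (σ : ℕ → Fm) (Y : Set PT)
    (hY : ∀ X : Finset PT, (∀ x ∈ X, x ∈ Y) → ∃ z, Tight z X ∧ ∃ y ∈ Y,
      S.filter (fun a => a.subst σ ∈ z.T) = S.filter (fun a => a.subst σ ∈ y.T)) :
    ExtProp S {t | ∃ y ∈ Y, t = S.filter (fun a => a.subst σ ∈ y.T)} := by
  intro W _ V hV w hw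
  obtain ⟨At, hAt⟩ := exists_atoms S
  have hrep : ∀ t : Finset Fm, ∃ y : PT, (∃ u, w < u ∧ typ S V u = t) →
      y ∈ Y ∧ t = S.filter (fun a => a.subst σ ∈ y.T) := by
    intro t
    by_cases h : ∃ u, w < u ∧ typ S V u = t
    · obtain ⟨u, hu, rfl⟩ := h
      obtain ⟨y, hy⟩ := hw u hu
      exact ⟨y, fun _ => hy⟩
    · exact ⟨slashPT ∅, fun H => absurd H h⟩
  choose rep hrep using hrep
  let X := (S.powerset.filter fun t => ∃ u, w < u ∧ typ S V u = t).image rep
  have k1 : ∀ u, w < u → ∃ x ∈ X, typ S V u = S.filter (fun a => a.subst σ ∈ x.T) :=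
    fun u hu => ⟨rep (typ S V u), Finset.mem_image_of_mem _ (Finset.mem_filter.2
      ⟨Finset.mem_powerset.2 (Finset.filter_subset _ _), u, hu, rfl⟩), (hrep _ ⟨u, hu, rfl⟩).2⟩
  have k2 : ∀ x ∈ X, x ∈ Y ∧ ∃ u, w < u ∧ typ S V u = S.filter (fun a => a.subst σ ∈ x.T) := by
    intro x hx
    obtain ⟨t, ht, rfl⟩ := Finset.mem_image.1 hx
    obtain ⟨u, hu, rfl⟩ := (Finset.mem_filter.1 ht).2
    exact ⟨(hrep _ ⟨u, hu, rfl⟩).1, u, hu, (hrep _ ⟨u, hu, rfl⟩).2⟩
  obtain ⟨z, hz, y0, hy0, hzy⟩ := hY X fun x hx => (k2 x hx).1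
  have key : ∀ u, w < u → ∀ a ∈ S, a.subst σ ∈ z.T → force V a u := by
    intro u hu a ha haz
    obtain ⟨y, hy, hyu⟩ := k1 u hu
    have h1 : a ∈ typ S V u := by
      rw [hyu]
      exact Finset.mem_filter.2 ⟨ha, hz.1 y hy haz⟩
    exact (Finset.mem_filter.1 h1).2
  refine ⟨At.filter (fun p => σ p ∈ z.T), fun p hp => (hAt p).1 (Finset.mem_filter.1 hp).1,
    fun u hu p hp => key u hu (.var p) ((hAt p).1 (Finset.mem_filter.1 hp).1)
      (Finset.mem_filter.1 hp).2, fun V' h1 h2 => ⟨y0, hy0, ?_⟩⟩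
  have hup : ∀ u, w < u → ∀ a : Fm, (force V' a u ↔ force V a u) := fun u hu a =>
    force_congr a u fun v hv p => h1 v (lt_of_lt_of_le hu hv) p
  have main : ∀ a : Fm, a ∈ S → (force V' a w ↔ a.subst σ ∈ z.T) := by
    intro a
    induction a with
    | var p =>
      intro ha
      rw [force_var, h2 p ha]
      simp [Fm.subst, (hAt p).2 ha]
    | bot => intro _; exact ⟨False.elim, z.cons⟩
    | and a b iha ihb =>
      intro h
      rw [force_and, iha (hS.and h).1, ihb (hS.and h).2, Fm.subst, z.and_iff]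
    | or a b iha ihb =>
      intro h
      rw [force_or, iha (hS.or h).1, ihb (hS.or h).2, Fm.subst, z.or_iff]
    | imp a b iha ihb =>
      intro h
      rw [Fm.subst, hz.imp_iff, ← iha (hS.imp h).1, ← ihb (hS.imp h).2]
      constructor
      · intro H
        refine ⟨fun y hy => ?_, H w le_rfl⟩
        obtain ⟨-, u, hu, hyu⟩ := k2 y hy
        have h3 : Fm.imp a b ∈ typ S V u := by
          refine Finset.mem_filter.2 ⟨h, (hup u hu _).1 ?_⟩
          exact fun v hv => H v (hu.le.trans hv)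
        rw [hyu] at h3
        exact (Finset.mem_filter.1 h3).2
      · rintro ⟨H1, H2⟩ u hu
        rcases hu.eq_or_lt with rfl | hu
        · exact H2
        · obtain ⟨y, hy, hyu⟩ := k1 u hu
          have h3 : Fm.imp a b ∈ typ S V u := by
            rw [hyu]
            exact Finset.mem_filter.2 ⟨h, H1 y hy⟩
          exact (hup u hu _).2 (Finset.mem_filter.1 h3).2 u le_rfl
  rw [← hzy]
  ext a
  simp only [typ, Finset.mem_filter]
  exact and_congr_right (main a)

theorem adm_of_off {L : Set Fm} (hL : IsTh L) (hoff : Off L) {Γ : List Fm} {B : Fm}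
    (h : Admissible IPC Γ B) : Admissible L Γ B := by
  intro σ hΓ
  by_contra hB
  obtain ⟨x, hx, hBx, -⟩ := lindenbaum hL hB
  let S := subL (B :: Γ)
  have hS : SubCl S := subCl_subL _
  let TT : PT → Finset (Finset Fm) := fun r =>
    S.powerset.filter fun t => ∃ y, r ≤ y ∧ t = S.filter (fun a => a.subst σ ∈ y.T)
  have hex : ∃ n, ∃ r : PT, L ⊆ r.T ∧ r ≤ x ∧ S.powerset.card - (TT r).card = n :=
    ⟨_, x, hx, le_rfl, rfl⟩
  obtain ⟨r, hr, hrx, hn⟩ := Nat.find_spec hex
  have hmax : ∀ r' : PT, L ⊆ r'.T → r' ≤ r → TT r' = TT r := by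
    intro r' h1 h2
    have h3 := Nat.find_min' hex ⟨r', h1, h2.trans hrx, rfl⟩
    have h4 : (TT r').card ≤ S.powerset.card := Finset.card_filter_le _ _
    refine (Finset.eq_of_subset_of_card_le (fun t ht => ?_) (by omega)).symm
    obtain ⟨h5, y, hy, h6⟩ := Finset.mem_filter.1 ht
    exact Finset.mem_filter.2 ⟨h5, y, h2.trans hy, h6⟩
  let Y : Set PT := {y | r ≤ y}
  have hE := ext_of_tight hS σ Y (by
    intro X hX
    obtain ⟨y, r', h1, h2, h3, h4⟩ := hoff r X hr hX
    have h5 : S.filter (fun a => a.subst σ ∈ y.T) ∈ TT r' := Finset.mem_filter.2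
      ⟨Finset.mem_powerset.2 (Finset.filter_subset _ _), y, h3, rfl⟩
    rw [hmax r' h1 h2] at h5
    obtain ⟨-, y', hy', h6⟩ := Finset.mem_filter.1 h5
    exact ⟨y, h4, y', hy', h6⟩)
  obtain ⟨θ, hθ1, hθ2⟩ := projective hE
  set XT : Set (Finset Fm) := {t | ∃ y ∈ Y, t = S.filter (fun a => a.subst σ ∈ y.T)} with hXT
  have hBθ : B.subst θ ∈ IPC := by
    refine h θ fun C hC => ?_
    refine completeness fun W _ V hV w _ => ?_
    have h1 : force V ((charFm S XT).subst θ) w := soundness hV (by simp) hθ1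
    rw [force_subst] at h1 ⊢
    obtain ⟨y, hy, hyt⟩ := (force_charFm _ S XT w).1 h1 w le_rfl
    have hCS : C ∈ S := mem_subL _ _ (List.mem_cons_of_mem _ hC)
    have : C ∈ typ S (fun n => force V (θ n)) w := by
      rw [hyt]
      exact Finset.mem_filter.2 ⟨hCS, hy (hr (hΓ C hC))⟩
    exact (Finset.mem_filter.1 this).2
  let V : ℕ → PT → Prop := fun n => force canV (σ n)
  have hV : Mono V := mono_subst canV_mono σ
  have hxC : force V (charFm S XT) x := by
    rw [force_charFm]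
    intro u hu
    refine ⟨u, hrx.trans hu, ?_⟩
    ext a
    simp only [typ, Finset.mem_filter]
    rw [← force_subst, truth]
  have h2 : force V (B.subst θ) x := soundness hV (by simp) hBθ
  rw [hθ2 PT V hV x hxC, ← force_subst, truth] at h2
  exact hBx h2

end Pool.Agent.Lib.VR82
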