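import Pool.Agent.Lib.VR82.C

/-! The finite certificates and the characterisation theorem. -/

namespace Pool.Agent.Lib.VR82

open Classical Pool.Agent.Lib.MP_47f674_lc

section
variable {α β : Type}

/-- all ways of splitting a list into a positive and a negative part -/
def splits (l : List α) : List (List α × List α) :=
  l.foldr (fun a T => T.flatMap fun τ => [(a :: τ.1, τ.2), (τ.1, a :: τ.2)]) [([], [])]

/-- all assignments of members of `L` to the indices in `is` -/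
def asgs (is : List ℕ) (L : List α) : List (List (ℕ × α)) :=
  is.foldr (fun i T => T.flatMap fun ts => L.map fun τ => (i, τ) :: ts) [[]]

theorem splits_cons (a : α) (l : List α) : splits (a :: l) =
    (splits l).flatMap fun τ => [(a :: τ.1, τ.2), (τ.1, a :: τ.2)] := rfl

theorem asgs_cons (i : ℕ) (is : List ℕ) (L : List α) : asgs (i :: is) L =
    (asgs is L).flatMap fun ts => L.map fun τ => (i, τ) :: ts := rfl

theorem splits_cover (l : List α) : ∀ τ ∈ splits l, ∀ a ∈ l, a ∈ τ.1 ∨ a ∈ τ.2 := by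
  induction l with
  | nil => simp
  | cons b l ih =>
    intro τ hτ a ha
    obtain ⟨τ', h1, h2⟩ := List.mem_flatMap.1 (splits_cons b l ▸ hτ)
    have := ih τ' h1 a
    simp only [List.mem_cons, List.not_mem_nil, or_false] at h2 ha
    rcases h2 with rfl | rfl <;> simp only [List.mem_cons] <;> tauto

theorem filter_mem_splits (p : α → Prop) (l : List α) :
    (l.filter fun a => p a, l.filter fun a => ¬ p a) ∈ splits l := by
  induction l with
  | nil => simp [splits]
  | cons b l ih =>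
    rw [splits_cons]
    refine List.mem_flatMap.2 ⟨_, ih, ?_⟩
    by_cases h : p b <;> simp [h]

theorem mem_asgs (L : List α) (is : List ℕ) : ∀ ts : List (ℕ × α),
    ts ∈ asgs is L ↔ ts.map Prod.fst = is ∧ ∀ p ∈ ts, p.2 ∈ L := by
  induction is with
  | nil =>
    intro ts
    simp only [asgs, List.foldr_nil, List.mem_singleton, List.map_eq_nil_iff]
    exact ⟨fun h => ⟨h, by simp [h]⟩, fun h => h.1⟩
  | cons i is ih =>
    intro ts
    simp only [asgs_cons, List.mem_flatMap, List.mem_map, ih]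
    constructor
    · rintro ⟨ts', ⟨h1, h2⟩, τ, hτ, rfl⟩
      refine ⟨by simp [h1], fun p hp => ?_⟩
      rcases List.mem_cons.1 hp with rfl | hp
      · exact hτ
      · exact h2 p hp
    · rintro ⟨h1, h2⟩
      cases ts with
      | nil => simp at h1
      | cons p ts =>
        simp only [List.map_cons, List.cons.injEq] at h1
        exact ⟨ts, ⟨h1.2, fun q hq => h2 q (List.mem_cons_of_mem _ hq)⟩, p.2,
          h2 p List.mem_cons_self, by rw [← h1.1]⟩

end

abbrev Ty := List Fm × List Fm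

def item (τ : Ty) (a b : Fm) : Fm := .imp (.and (conj τ.1) a) (.or (disj τ.2) b)

def ee (N i : ℕ) : Fm := .var (N + 1 + i)

def bigE (N : ℕ) (ts : List (ℕ × Ty)) : Fm := disj (ts.map fun p => ee N p.1)

/-- relativised Visser axiom -/
def certV (N : ℕ) (τ : Ty) (ts : List (ℕ × Ty)) : Fm :=
  item τ (.imp (.imp (bigE N ts) (.var N)) (bigE N ts))
    (disj (ts.map fun p => item p.2 (.imp (bigE N ts) (.var N)) (ee N p.1)))

/-- relativised width axiom -/
def certW (N : ℕ) (τ : Ty) (ts : List (ℕ × Ty)) : Fm :=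
  item τ top (disj (ts.map fun p => item p.2 (ee N p.1)
    (disj (ts.flatMap fun p' => if p'.1 = p.1 then [] else [ee N p'.1]))))

def BadL (l : List Fm) (A : Fm) (τ : Ty) (ts : List (ℕ × Ty)) : Prop :=
  Bad l A {a | a ∈ τ.1} {a | ∀ p ∈ ts, a ∈ p.2.1}

def Cert (L : Set Fm) (l : List Fm) (A : Fm) (N : ℕ) : Prop :=
  ∀ τ ∈ splits l, (∀ ts ∈ asgs (List.range N) (splits l), BadL l A τ ts → certV N τ ts ∈ L) ∧
    ∀ ts ∈ asgs (List.range (N + 1)) (splits l), BadL l A τ ts → certW N τ ts ∈ L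

def Real (σ : ℕ → Fm) (x : PT) (τ : Ty) : Prop :=
  (∀ a ∈ τ.1, a.subst σ ∈ x.T) ∧ ∀ a ∈ τ.2, a.subst σ ∉ x.T

theorem item_iff (σ : ℕ → Fm) (τ : Ty) (a b : Fm) (w : PT) : (item τ a b).subst σ ∉ w.T ↔
    ∃ x, w ≤ x ∧ Real σ x τ ∧ a.subst σ ∈ x.T ∧ b.subst σ ∉ x.T := by
  simp only [item, Fm.subst, pt_imp, PT.and_iff, PT.or_iff, subst_conj, subst_disj, PT.conj_iff,
    PT.disj_iff, Real, List.mem_map, not_forall, not_or, not_exists, not_and]
  constructor
  · rintro ⟨x, h1, ⟨h2, h3⟩, h4, h5⟩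
    exact ⟨x, h1, ⟨fun c hc => h2 _ ⟨c, hc, rfl⟩, fun c hc => h4 _ ⟨c, hc, rfl⟩⟩, h3, h5⟩
  · rintro ⟨x, h1, ⟨h2, h4⟩, h3, h5⟩
    refine ⟨x, h1, ⟨?_, h3⟩, ?_, h5⟩
    · rintro _ ⟨c, hc, rfl⟩
      exact h2 c hc
    · rintro _ ⟨c, hc, rfl⟩
      exact h4 c hc

theorem disj_map_not {γ : Type} (σ : ℕ → Fm) (ts : List γ) (f : γ → Fm) (w : PT) :
    (disj (ts.map f)).subst σ ∉ w.T ↔ ∀ p ∈ ts, (f p).subst σ ∉ w.T := by
  simp [PT.disj_iff]

theorem Real.agree {l : List Fm} {σ : ℕ → Fm} {x : PT} {τ : Ty} (h : Real σ x τ)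
    (hτ : τ ∈ splits l) : Agree l {a | a ∈ τ.1} (ty σ x) := fun a ha =>
  ⟨h.1 a, fun H => (splits_cover l τ hτ a ha).resolve_right fun H' => h.2 a H' H⟩

section
variable {L : Set Fm} {l : List Fm} {A : Fm}

theorem BadL.real (hl : Cl l) {τ : Ty} {ts : List (ℕ × Ty)} (h : BadL l A τ ts) {σ : ℕ → Fm}
    {w : PT} {x : ℕ × Ty → PT} (hτ : τ ∈ splits l) (hts : ∀ p ∈ ts, p.2 ∈ splits l)
    (hw : Real σ w τ) (hx : ∀ p ∈ ts, Real σ (x p) p.2) :
    Bad l A (ty σ w) (meet σ (ts.toFinset.image x)) := by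
  refine Bad.congr hl h (hw.agree hτ) fun a ha => ?_
  simp only [meet, Set.mem_ofPred_eq, Finset.forall_mem_image, List.mem_toFinset]
  exact forall₂_congr fun p hp => (hx p hp).agree (hts p hp) a ha

theorem cert_of_off (hL : IsTh L) (hoff : Off L) (hA : ∀ σ, A.subst σ ∈ L) (hl : Cl l)
    (hAl : A ∈ l) {N : ℕ} (hN : bnd l.length ≤ N) : Cert L l A N := by
  intro τ hτ
  refine ⟨fun ts hts hB => ?_, fun ts hts hB => ?_⟩
  · by_contra hn
    obtain ⟨w0, hw0, h0, -⟩ := lindenbaum hL hn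
    rw [← subst_var (certV N τ ts), certV, item_iff] at h0
    obtain ⟨w, hw, hR, hφ, hd⟩ := h0
    simp only [disj_map_not, item_iff] at hd
    have : Nonempty PT := ⟨w⟩
    choose! x x1 x2 x3 x4 using hd
    refine narrow hoff hA hl hAl Fm.var (hw0.trans hw) (fun f hf => ?_) (fun y hy ht => ?_)
      (hB.real hl hτ ((mem_asgs _ _ _).1 hts).2 hR x2)
    · obtain ⟨p, hp, rfl⟩ := Finset.mem_image.1 hf
      exact x1 p (List.mem_toFinset.1 hp)
    · have hE : (bigE N ts).subst Fm.var ∉ y.T := (disj_map_not _ _ _ _).2 fun p hp H =>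
        x4 p hp (ht.1 _ (Finset.mem_image_of_mem _ (List.mem_toFinset.2 hp)) H)
      refine hE (y.th.mp (hy hφ) ((ht.imp_iff _ _).2 ⟨fun f hf => ?_, fun H => absurd H hE⟩))
      obtain ⟨p, hp, rfl⟩ := Finset.mem_image.1 hf
      exact x3 p (List.mem_toFinset.1 hp)
  · by_contra hn
    obtain ⟨w0, hw0, h0, -⟩ := lindenbaum hL hn
    rw [← subst_var (certW N τ ts), certW, item_iff] at h0
    obtain ⟨w, hw, hR, -, hd⟩ := h0
    simp only [disj_map_not, item_iff] at hd
    have : Nonempty PT := ⟨w⟩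
    choose! x x1 x2 x3 x4 using hd
    obtain ⟨h1, h2⟩ := (mem_asgs _ _ _).1 hts
    have hnd : (ts.map Prod.fst).Nodup := h1 ▸ List.nodup_range
    have key : ∀ p ∈ ts, ∀ p' ∈ ts, x p ≤ x p' → p = p' := by
      intro p hp p' hp' h
      refine List.inj_on_of_nodup_map hnd hp hp' ?_
      by_contra hne
      refine x4 p' hp' ?_
      rw [subst_disj, PT.disj_iff]
      exact ⟨_, List.mem_map.2 ⟨ee N p.1, List.mem_flatMap.2 ⟨p, hp, by simp [hne]⟩, rfl⟩,
        h (x3 p hp)⟩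
    refine wide hoff hA hl hAl Fm.var (hw0.trans hw) (fun f hf => ?_) (fun s hs s' hs' h => ?_) ?_
      (hB.real hl hτ h2 hR x2)
    · obtain ⟨p, hp, rfl⟩ := Finset.mem_image.1 hf
      exact x1 p (List.mem_toFinset.1 hp)
    · obtain ⟨p, hp, rfl⟩ := Finset.mem_image.1 hs
      obtain ⟨p', hp', rfl⟩ := Finset.mem_image.1 hs'
      rw [key p (List.mem_toFinset.1 hp) p' (List.mem_toFinset.1 hp') h]
    · rw [Finset.card_image_of_injOn fun p hp p' hp' h =>
        key p (List.mem_toFinset.1 hp) p' (List.mem_toFinset.1 hp') h.le,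
        List.toFinset_card_of_nodup (hnd.of_map _)]
      have : ts.length = N + 1 := by simpa using congrArg List.length h1
      omega

theorem subst_agree (hl : Cl l) {σ σ' : ℕ → Fm} (h : ∀ p, Fm.var p ∈ l → σ' p = σ p) :
    ∀ B ∈ l, B.subst σ' = B.subst σ := by
  intro B
  induction B with
  | var p => exact h p
  | bot => exact fun _ => rfl
  | and a b iha ihb => exact fun H => by simp [Fm.subst, iha (hl.and H).1, ihb (hl.and H).2]
  | or a b iha ihb => exact fun H => by simp [Fm.subst, iha (hl.or H).1, ihb (hl.or H).2]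
  | imp a b iha ihb => exact fun H => by simp [Fm.subst, iha (hl.imp H).1, ihb (hl.imp H).2]

noncomputable def sp (l : List Fm) (σ : ℕ → Fm) (x : PT) : Ty :=
  (l.filter fun a => a.subst σ ∈ x.T, l.filter fun a => ¬ a.subst σ ∈ x.T)

def ext (N : ℕ) (σ ρ : ℕ → Fm) : ℕ → Fm := fun p => if p < N then σ p else ρ (p - N)

theorem ext_q (N : ℕ) (σ ρ : ℕ → Fm) : (Fm.var N).subst (ext N σ ρ) = ρ 0 := by
  simp [Fm.subst, ext]

theorem ext_e (N i : ℕ) (σ ρ : ℕ → Fm) : (ee N i).subst (ext N σ ρ) = ρ (i + 1) := by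
  simp only [ee, Fm.subst, ext]
  rw [if_neg (by omega)]
  congr 1
  omega

theorem real_sp (hl : Cl l) {N : ℕ} (hv : ∀ p, Fm.var p ∈ l → p < N) (σ ρ : ℕ → Fm) (x : PT) :
    Real (ext N σ ρ) x (sp l σ x) := by
  have h := subst_agree hl (σ := σ) (σ' := ext N σ ρ) fun p hp => by simp [ext, hv p hp]
  constructor <;> intro a ha <;> simp only [sp, List.mem_filter, decide_eq_true_eq] at ha <;>
    rw [h a ha.1] <;> exact ha.2

theorem enum (X : Finset PT) {x0 : PT} (h0 : x0 ∈ X) : ∃ g : ℕ → PT, (∀ i, g i ∈ X) ∧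
    (∀ x ∈ X, ∃ i < X.card, g i = x) ∧ ∀ i < X.card, ∀ j < X.card, g i = g j → i = j := by
  refine ⟨fun i => X.toList.getD i x0, fun i => ?_, fun x hx => ?_, fun i hi j hj h => ?_⟩
  · by_cases hi : i < X.toList.length
    · simp only [List.getD_eq_getElem _ _ hi]
      exact Finset.mem_toList.1 (List.getElem_mem hi)
    · simpa only [List.getD_eq_default _ _ (not_lt.1 hi)] using h0
  · obtain ⟨i, hi, h⟩ := List.getElem_of_mem (Finset.mem_toList.2 hx)
    exact ⟨i, by simpa using hi, by simpa only [List.getD_eq_getElem _ _ hi] using h⟩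
  · have hi' : i < X.toList.length := by simpa using hi
    have hj' : j < X.toList.length := by simpa using hj
    simp only [List.getD_eq_getElem _ _ hi', List.getD_eq_getElem _ _ hj'] at h
    exact (List.Nodup.getElem_inj_iff X.nodup_toList).1 h

theorem exists_sep' {Y : Finset PT} {u : PT} (h : ∀ x ∈ Y, ¬ u ≤ x) :
    ∃ d ∈ u.T, ∀ x ∈ Y, d ∉ x.T := by
  have h' : ∀ x ∈ Y, ∃ c, c ∈ u.T ∧ c ∉ x.T := fun x hx => Set.not_subset.1 (h x hx)
  have : Nonempty Fm := ⟨.bot⟩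
  choose! c hc using h'
  refine ⟨conj (Y.toList.map c), (u.conj_iff _).2 fun a ha => ?_, fun x hx H => ?_⟩
  · obtain ⟨x, hx, rfl⟩ := List.mem_map.1 ha
    exact (hc x (Finset.mem_toList.1 hx)).1
  · exact (hc x hx).2 ((x.conj_iff _).1 H _ (List.mem_map.2 ⟨x, Finset.mem_toList.2 hx, rfl⟩))

theorem pat_mem (l : List Fm) (σ : ℕ → Fm) (g : ℕ → PT) (n : ℕ) :
    ((List.range n).map fun i => (i, sp l σ (g i))) ∈ asgs (List.range n) (splits l) := by
  refine (mem_asgs _ _ _).2 ⟨by simp [Function.comp_def], fun p hp => ?_⟩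
  obtain ⟨i, -, rfl⟩ := List.mem_map.1 hp
  exact filter_mem_splits _ l

theorem pat_bad (hl : Cl l) {σ : ℕ → Fm} {r : PT} {I : Set Fm} (hB : Bad l A (ty σ r) I)
    {g : ℕ → PT} {n : ℕ} (hI : ∀ a ∈ l, (a ∈ I ↔ ∀ i < n, a ∈ ty σ (g i))) :
    BadL l A (sp l σ r) ((List.range n).map fun i => (i, sp l σ (g i))) := by
  refine Bad.congr hl hB (fun a ha => ?_) fun a ha => ?_
  · simp [sp, ty, ha]
  · simp [hI a ha, sp, ty, ha]

theorem off_of_cert (hL : ∀ y : PT, (∀ σ, A.subst σ ∈ y.T) → L ⊆ y.T)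
    (hsub : ∀ B ∈ L, ∀ σ, B.subst σ ∈ L) (hl : Cl l) {N : ℕ}
    (hN : l.length ≤ N) (hv : ∀ p, Fm.var p ∈ l → p < N) (hC : Cert L l A N) : Off L := by
  intro r X hr hX
  rcases X.eq_empty_or_nonempty with rfl | ⟨x0, hx0⟩
  · obtain ⟨y, h1, h2⟩ := tp_core (hyp_empty r)
    exact ⟨y, r, hr, le_rfl, h1, h2⟩
  have t1 := tight_slash X
  set y0 := slashPT (X : Set PT)
  have t2 := tight_slash {r, y0}
  set r0 := slashPT (({r, y0} : Finset PT) : Set PT)
  by_cases h0 : ∀ σ, A.subst σ ∈ r0.T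
  · exact ⟨y0, r0, hL r0 h0, t2.1 r (by simp), t2.1 y0 (by simp), t1⟩
  push Not at h0
  obtain ⟨σ, hσ⟩ := h0
  have hB : Bad l A (ty σ r) (meet σ X) := ⟨ty σ y0, ty σ r0, t1.loc l σ,
    (t2.loc l σ).congr hl (Agree.rfl' _ _) fun a _ => by simp [meet, ty], hσ⟩
  let X' := X.filter fun x => Minimal (· ∈ X) x
  have hmin : ∀ x ∈ X, ∃ x' ∈ X', x' ≤ x := fun x hx => by
    obtain ⟨b, h1, h2⟩ := X.exists_le_minimal hx
    exact ⟨b, Finset.mem_filter.2 ⟨h2.prop, h2⟩, h1⟩
  have hX' : X' ⊆ X := Finset.filter_subset _ _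
  have anti : ∀ s ∈ X', ∀ s' ∈ X', s ≤ s' → s = s' := fun s hs s' hs' h =>
    pt_antisymm h ((Finset.mem_filter.1 hs').2.le_of_le (hX' hs) h)
  obtain ⟨x1, hx1, -⟩ := hmin x0 hx0
  obtain ⟨hV, hW⟩ := hC _ (filter_mem_splits (fun a => a.subst σ ∈ r.T) l)
  by_cases hc : X'.card ≤ N
  · obtain ⟨g, g1, g2, -⟩ := enum X' hx1
    have hcert := hV _ (pat_mem l σ g N) (pat_bad hl hB fun a _ =>
      ⟨fun H i _ => H _ (hX' (g1 i)), fun H x hx => by
        obtain ⟨x', h1, h2⟩ := hmin x hx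
        obtain ⟨i, hi, rfl⟩ := g2 x' h1
        exact h2 (H i (by omega))⟩)
    obtain ⟨y, h1, h2⟩ := tp_core (r := r) (X := X') (by
      intro l0 a o hi hG
      let ρ : ℕ → Fm := fun k =>
        if k = 0 then a else disj (l0.filter fun e => e ∉ (g (k - 1)).T)
      have hρ : ∀ i, ρ (i + 1) = disj (l0.filter fun e => e ∉ (g i).T) := fun i => by simp [ρ]
      refine (item_iff (ext N σ ρ) _ _ _ r).2 ⟨r, le_rfl, real_sp hl hv σ ρ r, ?_, ?_⟩
        (hr (hsub _ hcert _))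
      · have hE : ∀ u : PT, (bigE N ((List.range N).map fun i => (i, sp l σ (g i)))).subst
            (ext N σ ρ) ∈ u.T ↔ disj l0 ∈ u.T := by
          intro u
          rw [← not_iff_not, bigE, disj_map_not]
          simp only [List.forall_mem_map, List.mem_range, ext_e, hρ, PT.disj_iff, List.mem_filter,
            decide_eq_true_eq, not_exists, not_and, and_imp]
          refine ⟨fun H e he => ?_, fun H i _ e he _ => H e he⟩
          obtain ⟨x, hx, hex⟩ := o e he
          obtain ⟨i, hi, rfl⟩ := g2 x hx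
          exact H i (by omega) e he hex
        refine (pt_imp r _ _).2 fun u hu H => (hE u).2 (u.th.mp (hu hG) ?_)
        refine (pt_imp u _ _).2 fun v hv' H' => ?_
        have := v.th.mp (hv' H) ((hE v).2 H')
        rwa [ext_q] at this
      · rw [disj_map_not, List.forall_mem_map]
        intro i _
        refine (item_iff _ _ _ _ r).2 ⟨g i, hX _ (hX' (g1 i)), real_sp hl hv σ ρ _,
          (g i).th.weak _ ?_, ?_⟩
        · rw [ext_q]
          exact hi _ (g1 i)
        · simp [ext_e, hρ, PT.disj_iff])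
    refine ⟨y, r, hr, le_rfl, h1, fun x hx => ?_, fun u hu => (h2.2 u hu).imp id ?_⟩
    · obtain ⟨x', h3, h4⟩ := hmin x hx
      exact (h2.1 x' h3).trans h4
    · rintro ⟨x, h3, h4⟩
      exact ⟨x, hX' h3, h4⟩
  · exfalso
    have hrep : ∀ a : Fm, ∃ x ∈ X', a ∉ meet σ X → a ∉ ty σ x := by
      intro a
      by_cases h : a ∈ meet σ X
      · exact ⟨x1, hx1, fun H => absurd h H⟩
      · obtain ⟨x, hx, h1⟩ : ∃ x ∈ X, a.subst σ ∉ x.T := by simpa [meet] using h
        obtain ⟨x', h2, h3⟩ := hmin x hx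
        exact ⟨x', h2, fun _ H => h1 (h3 H)⟩
    choose rep rep1 rep2 using hrep
    obtain ⟨X2, s1, s2, s3⟩ := Finset.exists_subsuperset_card_eq (s := l.toFinset.image rep)
      (t := X') (n := N + 1) (fun x hx => by
        obtain ⟨a, -, rfl⟩ := Finset.mem_image.1 hx
        exact rep1 a)
      ((Finset.card_image_le.trans (List.toFinset_card_le l)).trans (by omega)) (by omega)
    obtain ⟨x2, hx2⟩ : X2.Nonempty := Finset.card_pos.1 (by omega)
    obtain ⟨g, g1, g2, g3⟩ := enum X2 hx2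
    rw [s3] at g2 g3
    have hcert := hW _ (pat_mem l σ g (N + 1)) (pat_bad hl hB fun a ha =>
      ⟨fun H i _ => H _ (hX' (s2 (g1 i))), fun H => by
        by_contra hn
        obtain ⟨i, hi, h⟩ := g2 _ (s1 (Finset.mem_image_of_mem rep (List.mem_toFinset.2 ha)))
        exact rep2 a hn (h ▸ H i hi)⟩)
    have hd : ∀ i, ∃ d ∈ (g i).T, ∀ x ∈ X2.erase (g i), d ∉ x.T := fun i =>
      exists_sep' fun x hx h => (Finset.mem_erase.1 hx).1
        (anti _ (s2 (g1 i)) x (s2 (Finset.mem_of_mem_erase hx)) h).symm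
    choose d d1 d2 using hd
    let ρ : ℕ → Fm := fun k => d (k - 1)
    refine (item_iff (ext N σ ρ) _ top _ r).2 ⟨r, le_rfl, real_sp hl hv σ ρ r, pt_top r, ?_⟩
      (hr (hsub _ hcert _))
    rw [disj_map_not, List.forall_mem_map]
    intro i hi
    refine (item_iff _ _ _ _ r).2 ⟨g i, hX _ (hX' (s2 (g1 i))), real_sp hl hv σ ρ _, ?_, ?_⟩
    · rw [ext_e]
      exact d1 i
    · rw [subst_disj, PT.disj_iff]
      rintro ⟨_, h1, h2⟩
      obtain ⟨c, h3, rfl⟩ := List.mem_map.1 h1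
      obtain ⟨_, h4, h5⟩ := List.mem_flatMap.1 h3
      obtain ⟨j, hj, rfl⟩ := List.mem_map.1 h4
      by_cases hji : j = i
      · simp [hji] at h5
      · simp only [hji, if_false, List.mem_singleton] at h5
        rw [h5, ext_e] at h2
        exact d2 j (g i) (Finset.mem_erase.2 ⟨fun h => hji (g3 i (List.mem_range.1 hi) j
          (List.mem_range.1 hj) h).symm, g1 i⟩) h2

end

theorem logic_subst {A B : Fm} (h : B ∈ Logic A) (σ : ℕ → Fm) : B.subst σ ∈ Logic A := by
  induction h with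
  | ax h => exact Deriv.ax (by cases h <;> constructor)
  | hyp h =>
    obtain ⟨τ, rfl⟩ := h
    exact Deriv.hyp ⟨_, subst_subst τ σ A⟩
  | mp _ _ ih1 ih2 => exact Deriv.mp ih1 ih2

/-- Characterisation of the logics `L_A` that admit all IPC-admissible rules. -/
theorem adm_iff_cert {A : Fm} {l : List Fm} (hl : Cl l) (hAl : A ∈ l) :
    (∀ Γ B, Admissible IPC Γ B → Admissible (Logic A) Γ B) ↔
      ∃ N, l.length ≤ N ∧ (∀ p, Fm.var p ∈ l → p < N) ∧ Cert (Logic A) l A N := by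
  have hL : IsTh (Logic A) := isTh_deriv _
  constructor
  · intro h
    obtain ⟨At, hAt⟩ := exists_atoms l.toFinset
    refine ⟨l.length + (At.sup id + 1) + bnd l.length, by omega, fun p hp => ?_,
      cert_of_off hL (off_of_adm hL h) (fun σ => Deriv.hyp ⟨σ, rfl⟩) hl hAl (by omega)⟩
    have : id p ≤ At.sup id := Finset.le_sup ((hAt p).2 (List.mem_toFinset.2 hp))
    simp only [id] at this
    omega
  · rintro ⟨N, h1, h2, h3⟩ Γ B h
    refine adm_of_off hL (off_of_cert (fun y hy c hc => y.th.deriv ?_ hc)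
      (fun B hB => logic_subst hB) hl h1 h2 h3) h
    rintro _ ⟨σ, rfl⟩
    exact hy σ

end Pool.Agent.Lib.VR82
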