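import Pool.Agent.Lib.MP_47f674_lc.Main
import Pool.Agent.Lib.VR82.D
import Pool.Agent.Lib.helper10.Sig

/-! Derivability in `L_A` is Sigma-one on codes. -/

namespace Pool.Agent.Lib.VR82

open Classical Pool.Agent.Lib.MP_47f674_lc Pool.Agent.H10

section
variable {α β σ : Type} [Primcodable α] [Primcodable β] [Primcodable σ]

@[fun_prop] theorem pr_natPair {f g : α → ℕ} (hf : Primrec f) (hg : Primrec g) :
    Primrec fun a => Nat.pair (f a) (g a) := Primrec₂.natPair.comp hf hg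

@[fun_prop] theorem pr_foldr {f : α → List β} {g : α → σ} {h : α → β → σ → σ} (hf : Primrec f)
    (hg : Primrec g) (hh : Primrec fun x : α × β × σ => h x.1 x.2.1 x.2.2) :
    Primrec fun a => (f a).foldr (h a) (g a) :=
  Primrec.list_foldr (h := fun a p => h a p.1 p.2) hf hg hh

@[fun_prop] theorem pr_iteEq {f g : α → ℕ} {x y : α → σ} (hf : Primrec f) (hg : Primrec g)
    (hx : Primrec x) (hy : Primrec y) : Primrec fun a => if f a = g a then x a else y a :=
  Primrec.ite (Primrec.eq.comp hf hg) hx hy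

def NM (a : ℕ) (l : List ℕ) : Prop := a ∉ l

@[fun_prop] theorem sig_NM {f : α → ℕ} {g : α → List ℕ} (hf : Primrec f) (hg : Primrec g) :
    Sig fun a => NM (f a) (g a) := Sig.notMem hf hg

end

def cB (k a b : ℕ) : ℕ := Nat.pair k (Nat.pair a b)

@[fun_prop] theorem pr_cB {α : Type} [Primcodable α] {k f g : α → ℕ} (hk : Primrec k)
    (hf : Primrec f) (hg : Primrec g) : Primrec fun a => cB (k a) (f a) (g a) := by
  unfold cB
  fun_prop

theorem code_inj : ∀ {a b : Fm}, a.code = b.code → a = b := by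
  intro a
  induction a with
  | var n => intro b h; cases b <;> simp_all [Fm.code]
  | bot => intro b h; cases b <;> simp_all [Fm.code]
  | and a1 a2 ih1 ih2 =>
    intro b h
    cases b <;> simp only [Fm.code, Nat.pair_eq_pair] at h <;> try omega
    rw [ih1 h.2.1, ih2 h.2.2]
  | or a1 a2 ih1 ih2 =>
    intro b h
    cases b <;> simp only [Fm.code, Nat.pair_eq_pair] at h <;> try omega
    rw [ih1 h.2.1, ih2 h.2.2]
  | imp a1 a2 ih1 ih2 =>
    intro b h
    cases b <;> simp only [Fm.code, Nat.pair_eq_pair] at h <;> try omega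
    rw [ih1 h.2.1, ih2 h.2.2]

theorem code_and (a b : Fm) : (Fm.and a b).code = cB 2 a.code b.code := rfl
theorem code_or (a b : Fm) : (Fm.or a b).code = cB 3 a.code b.code := rfl
theorem code_imp (a b : Fm) : (Fm.imp a b).code = cB 4 a.code b.code := rfl

theorem inv_and {B : Fm} {a b : ℕ} (h : B.code = cB 2 a b) :
    ∃ a' b', B = .and a' b' ∧ a = a'.code ∧ b = b'.code := by
  cases B <;> simp only [Fm.code, cB, Nat.pair_eq_pair] at h <;> try omega
  exact ⟨_, _, rfl, h.2.1.symm, h.2.2.symm⟩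

theorem inv_or {B : Fm} {a b : ℕ} (h : B.code = cB 3 a b) :
    ∃ a' b', B = .or a' b' ∧ a = a'.code ∧ b = b'.code := by
  cases B <;> simp only [Fm.code, cB, Nat.pair_eq_pair] at h <;> try omega
  exact ⟨_, _, rfl, h.2.1.symm, h.2.2.symm⟩

theorem inv_imp {B : Fm} {a b : ℕ} (h : B.code = cB 4 a b) :
    ∃ a' b', B = .imp a' b' ∧ a = a'.code ∧ b = b'.code := by
  cases B <;> simp only [Fm.code, cB, Nat.pair_eq_pair] at h <;> try omega
  exact ⟨_, _, rfl, h.2.1.symm, h.2.2.symm⟩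

def subs : Fm → List Fm
  | .var n => [.var n]
  | .bot => [.bot]
  | .and a b => .and a b :: (subs a ++ subs b)
  | .or a b => .or a b :: (subs a ++ subs b)
  | .imp a b => .imp a b :: (subs a ++ subs b)

theorem subs.rlz : True := by have := @subs.eq_def; trivial

theorem self_subs (a : Fm) : a ∈ subs a := by cases a <;> simp [subs]

theorem cl_node {c : Fm} {l1 l2 : List Fm} (h1 : Cl l1) (h2 : Cl l2)
    (h : ∀ a b, (c = .and a b ∨ c = .or a b ∨ c = .imp a b) → a ∈ l1 ∧ b ∈ l2) :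
    Cl (c :: (l1 ++ l2)) := by
  constructor
  all_goals
    intro a b hab
    simp only [List.mem_cons, List.mem_append] at hab ⊢
    rcases hab with hab | hab | hab
  · have := h a b (Or.inl hab.symm); tauto
  · have := h1.and hab; tauto
  · have := h2.and hab; tauto
  · have := h a b (Or.inr (Or.inl hab.symm)); tauto
  · have := h1.or hab; tauto
  · have := h2.or hab; tauto
  · have := h a b (Or.inr (Or.inr hab.symm)); tauto
  · have := h1.imp hab; tauto
  · have := h2.imp hab; tauto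

theorem cl_subs (A : Fm) : Cl (subs A) := by
  induction A with
  | var n => constructor <;> simp [subs]
  | bot => constructor <;> simp [subs]
  | and a b ih1 ih2 =>
    refine cl_node ih1 ih2 ?_
    rintro c d (h | h | h) <;> cases h
    exact ⟨self_subs _, self_subs _⟩
  | or a b ih1 ih2 =>
    refine cl_node ih1 ih2 ?_
    rintro c d (h | h | h) <;> cases h
    exact ⟨self_subs _, self_subs _⟩
  | imp a b ih1 ih2 =>
    refine cl_node ih1 ih2 ?_
    rintro c d (h | h | h) <;> cases h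
    exact ⟨self_subs _, self_subs _⟩

theorem gen2 {J : Type} {R : List J → J → Prop} {a b j : J} (ha : Gen R a) (hb : Gen R b)
    (h : R [a, b] j) : Gen R j :=
  Gen.mk [a, b] j (by simp [ha, hb]) h

theorem gen0 {J : Type} {R : List J → J → Prop} {j : J} (h : R [] j) : Gen R j :=
  Gen.mk [] j (by simp) h

/-- rules generating the pairs (code, codes of the subformulas) -/
def RS (l : List (ℕ × List ℕ)) (j : ℕ × List ℕ) : Prop :=
  (∃ n, j = (Nat.pair 0 n, [Nat.pair 0 n])) ∨ j = (Nat.pair 1 0, [Nat.pair 1 0]) ∨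
    ∃ (k : ℕ) (a b : ℕ × List ℕ), l = [a, b] ∧ (k = 2 ∨ k = 3 ∨ k = 4) ∧
      j = (cB k a.1 b.1, cB k a.1 b.1 :: (a.2 ++ b.2))

theorem genS_iff (j : ℕ × List ℕ) : Gen RS j ↔ ∃ A : Fm, j = (A.code, (subs A).map Fm.code) := by
  constructor
  · intro h
    induction h with
    | mk l j _ hR ih =>
      rcases hR with ⟨n, rfl⟩ | rfl | ⟨k, a, b, rfl, hk, rfl⟩
      · exact ⟨.var n, rfl⟩
      · exact ⟨.bot, rfl⟩
      · obtain ⟨A, rfl⟩ := ih a (by simp)
        obtain ⟨B, rfl⟩ := ih b (by simp)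
        rcases hk with rfl | rfl | rfl
        · exact ⟨.and A B, by simp [subs, code_and]⟩
        · exact ⟨.or A B, by simp [subs, code_or]⟩
        · exact ⟨.imp A B, by simp [subs, code_imp]⟩
  · rintro ⟨A, rfl⟩
    induction A with
    | var n => exact gen0 (Or.inl ⟨n, rfl⟩)
    | bot => exact gen0 (Or.inr (Or.inl rfl))
    | and a b h1 h2 =>
      exact gen2 h1 h2 (Or.inr (Or.inr ⟨2, _, _, rfl, by simp, by simp [subs, code_and]⟩))
    | or a b h1 h2 =>
      exact gen2 h1 h2 (Or.inr (Or.inr ⟨3, _, _, rfl, by simp, by simp [subs, code_or]⟩))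
    | imp a b h1 h2 =>
      exact gen2 h1 h2 (Or.inr (Or.inr ⟨4, _, _, rfl, by simp, by simp [subs, code_imp]⟩))

theorem sig_genS : Sig (Gen RS) := Sig.gen (by unfold RS; fun_prop)

def IsC (c : ℕ) : Prop := ∃ A : Fm, c = A.code

@[fun_prop] theorem sig_IsC {α : Type} [Primcodable α] {f : α → ℕ} (hf : Primrec f) :
    Sig fun a => IsC (f a) := by
  have h : Sig fun c : ℕ => ∃ l : List ℕ, Gen RS (c, l) :=
    Sig.ex (sig_genS.comp (by fun_prop))
  refine Sig.comp (h.of_eq fun c => ?_) hf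
  simp only [genS_iff, Prod.mk.injEq, IsC]
  exact ⟨fun ⟨_, A, h, _⟩ => ⟨A, h⟩, fun ⟨A, h⟩ => ⟨_, A, h, rfl⟩⟩

/-- rules generating substitution instances -/
def RI (l : List (List ℕ × ℕ × ℕ)) (j : List ℕ × ℕ × ℕ) : Prop :=
  (∃ n v : ℕ, j.1[n]? = some v ∧ IsC v ∧ j.2 = (Nat.pair 0 n, v)) ∨
    j.2 = (Nat.pair 1 0, Nat.pair 1 0) ∨
    ∃ (k : ℕ) (a b : ℕ × ℕ), l = [(j.1, a), (j.1, b)] ∧ (k = 2 ∨ k = 3 ∨ k = 4) ∧
      j.2 = (cB k a.1 b.1, cB k a.2 b.2)

theorem sig_genI : Sig (Gen RI) := Sig.gen (by unfold RI; fun_prop)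

noncomputable def sg (s : List ℕ) (n : ℕ) : Fm :=
  if h : ∃ C : Fm, s[n]? = some C.code then h.choose else .bot

theorem genI_sound {j : List ℕ × ℕ × ℕ} (h : Gen RI j) :
    ∃ B : Fm, j.2 = (B.code, (B.subst (sg j.1)).code) := by
  induction h with
  | mk l j _ hR ih =>
    rcases hR with ⟨n, v, h1, ⟨C, rfl⟩, h2⟩ | h2 | ⟨k, a, b, rfl, hk, h2⟩
    · have h3 : ∃ C : Fm, j.1[n]? = some C.code := ⟨C, h1⟩
      refine ⟨.var n, ?_⟩
      have h4 : C.code = h3.choose.code := Option.some.inj (h1.symm.trans h3.choose_spec)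
      rw [h2, Fm.subst, sg, dif_pos h3, ← h4]
      rfl
    · exact ⟨.bot, h2⟩
    · obtain ⟨A, hA⟩ := ih (j.1, a) (by simp)
      obtain ⟨B, hB⟩ := ih (j.1, b) (by simp)
      simp only at hA hB
      subst hA hB
      rcases hk with rfl | rfl | rfl
      · exact ⟨.and A B, h2⟩
      · exact ⟨.or A B, h2⟩
      · exact ⟨.imp A B, h2⟩

theorem genI_compl (σ : ℕ → Fm) (M : ℕ) (A : Fm) : (∀ p, Fm.var p ∈ subs A → p < M) →
    Gen RI ((List.range M).map fun n => (σ n).code, A.code, (A.subst σ).code) := by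
  induction A with
  | var n =>
    intro h
    have := h n (self_subs _)
    exact gen0 (Or.inl ⟨n, (σ n).code, by simp [this], ⟨_, rfl⟩, rfl⟩)
  | bot => exact fun _ => gen0 (Or.inr (Or.inl rfl))
  | and a b h1 h2 =>
    exact fun h => gen2 (h1 fun p hp => h p (by simp [subs, hp]))
      (h2 fun p hp => h p (by simp [subs, hp])) (Or.inr (Or.inr ⟨2, _, _, rfl, by simp, rfl⟩))
  | or a b h1 h2 =>
    exact fun h => gen2 (h1 fun p hp => h p (by simp [subs, hp]))
      (h2 fun p hp => h p (by simp [subs, hp])) (Or.inr (Or.inr ⟨3, _, _, rfl, by simp, rfl⟩))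
  | imp a b h1 h2 =>
    exact fun h => gen2 (h1 fun p hp => h p (by simp [subs, hp]))
      (h2 fun p hp => h p (by simp [subs, hp])) (Or.inr (Or.inr ⟨4, _, _, rfl, by simp, rfl⟩))

theorem exists_bound (l : List Fm) : ∃ M, ∀ p, Fm.var p ∈ l → p < M := by
  obtain ⟨At, hAt⟩ := exists_atoms l.toFinset
  refine ⟨At.sup id + 1, fun p hp => ?_⟩
  have : id p ≤ At.sup id := Finset.le_sup ((hAt p).2 (List.mem_toFinset.2 hp))
  exact Nat.lt_succ_of_le this

def axs (a b c : ℕ) : List ℕ :=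
  [cB 4 a (cB 4 b a), cB 4 (cB 4 a (cB 4 b c)) (cB 4 (cB 4 a b) (cB 4 a c)),
    cB 4 (cB 2 a b) a, cB 4 (cB 2 a b) b, cB 4 a (cB 4 b (cB 2 a b)), cB 4 a (cB 3 a b),
    cB 4 b (cB 3 a b), cB 4 (cB 4 a c) (cB 4 (cB 4 b c) (cB 4 (cB 3 a b) c)),
    cB 4 (Nat.pair 1 0) a]

/-- rules generating the pairs (code of `A`, code of a theorem of `L_A`) -/
def RD (l : List (ℕ × ℕ)) (j : ℕ × ℕ) : Prop :=
  (∃ a b c : ℕ, IsC a ∧ IsC b ∧ IsC c ∧ j.2 ∈ axs a b c) ∨ (∃ s : List ℕ, Gen RI (s, j)) ∨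
    ∃ a : ℕ, l = [(j.1, cB 4 a j.2), (j.1, a)]

theorem sig_genD : Sig (Gen RD) := by
  refine Sig.gen ?_
  have h : Sig fun x : (List (ℕ × ℕ) × ℕ × ℕ) × List ℕ => Gen RI (x.2, x.1.2) :=
    sig_genI.comp (by fun_prop)
  exact Sig.or (by unfold axs; fun_prop) (Sig.or (Sig.ex h) (by fun_prop))

theorem genD_sound {A : Fm} {j : ℕ × ℕ} (h : Gen RD j) :
    j.1 = A.code → ∃ B ∈ Logic A, j.2 = B.code := by
  induction h with
  | mk l j _ hR ih =>
    intro hj
    rcases hR with ⟨_, _, _, ⟨a, rfl⟩, ⟨b, rfl⟩, ⟨c, rfl⟩, h⟩ | ⟨s, h⟩ | ⟨a, rfl⟩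
    · simp only [axs, List.mem_cons, List.not_mem_nil, or_false] at h
      rcases h with h | h | h | h | h | h | h | h | h
      · exact ⟨_, Deriv.ax (.k a b), h⟩
      · exact ⟨_, Deriv.ax (.s a b c), h⟩
      · exact ⟨_, Deriv.ax (.andL a b), h⟩
      · exact ⟨_, Deriv.ax (.andR a b), h⟩
      · exact ⟨_, Deriv.ax (.andI a b), h⟩
      · exact ⟨_, Deriv.ax (.orL a b), h⟩
      · exact ⟨_, Deriv.ax (.orR a b), h⟩
      · exact ⟨_, Deriv.ax (.orE a b c), h⟩
      · exact ⟨_, Deriv.ax (.efq a), h⟩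
    · obtain ⟨B, hB⟩ := genI_sound h
      simp only at hB
      subst hB
      rw [code_inj hj]
      exact ⟨_, Deriv.hyp ⟨_, rfl⟩, rfl⟩
    · obtain ⟨B1, h1, e1⟩ := ih (j.1, cB 4 a j.2) (by simp) hj
      obtain ⟨B2, h2, e2⟩ := ih (j.1, a) (by simp) hj
      obtain ⟨a', b', rfl, e3, e4⟩ := inv_imp e1.symm
      have : a' = B2 := code_inj (e3.symm.trans e2)
      subst this
      exact ⟨b', Deriv.mp h1 h2, e4⟩

theorem genD_iff (A B : Fm) : Gen RD (A.code, B.code) ↔ B ∈ Logic A := by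
  constructor
  · intro h
    obtain ⟨B', h1, h2⟩ := genD_sound (A := A) h rfl
    rwa [code_inj h2]
  · intro h
    induction h with
    | ax h =>
      have key : ∀ (a b c d : Fm), d.code ∈ axs a.code b.code c.code →
          Gen RD (A.code, d.code) :=
        fun a b c d hd => gen0 (Or.inl ⟨_, _, _, ⟨a, rfl⟩, ⟨b, rfl⟩, ⟨c, rfl⟩, hd⟩)
      cases h with
      | k a b => exact key a b a _ (by simp [axs, code_imp])
      | s a b c => exact key a b c _ (by simp [axs, code_imp])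
      | andL a b => exact key a b a _ (by simp [axs, code_imp, code_and])
      | andR a b => exact key a b a _ (by simp [axs, code_imp, code_and])
      | andI a b => exact key a b a _ (by simp [axs, code_imp, code_and])
      | orL a b => exact key a b a _ (by simp [axs, code_imp, code_or])
      | orR a b => exact key a b a _ (by simp [axs, code_imp, code_or])
      | orE a b c => exact key a b c _ (by simp [axs, code_imp, code_or])
      | efq a => exact key a a a _ (by simp [axs, Fm.code, cB])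
    | hyp h =>
      obtain ⟨σ, rfl⟩ := h
      obtain ⟨M, hM⟩ := exists_bound (subs A)
      exact gen0 (Or.inr (Or.inl ⟨_, genI_compl σ M A hM⟩))
    | mp _ _ ih1 ih2 => exact gen2 ih1 ih2 (Or.inr (Or.inr ⟨_, rfl⟩))

end Pool.Agent.Lib.VR82
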