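import Pool.Agent.Lib.VR82.E

/-! The certificate condition is Sigma-one on codes; Sigma-one completeness. -/

namespace Pool.Agent.Lib.VR82

open Classical Pool.Agent.Lib.MP_47f674_lc Pool.Agent.H10

theorem splits_map {α β : Type} (f : α → β) (l : List α) :
    splits (l.map f) = (splits l).map fun τ => (τ.1.map f, τ.2.map f) := by
  induction l with
  | nil => rfl
  | cons a l ih => simp [splits_cons, ih, List.flatMap_map, List.map_flatMap]

theorem asgs_map {α β : Type} (f : α → β) (L : List α) (is : List ℕ) :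
    asgs is (L.map f) = (asgs is L).map (List.map fun p => (p.1, f p.2)) := by
  induction is with
  | nil => rfl
  | cons i is ih => simp [asgs_cons, ih, List.flatMap_map, List.map_flatMap, Function.comp_def]

abbrev CT := List ℕ × List ℕ

def cConj (l : List ℕ) : ℕ := l.foldr (fun a b => cB 2 a b) (cB 4 (Nat.pair 1 0) (Nat.pair 1 0))
def cDisj (l : List ℕ) : ℕ := l.foldr (fun a b => cB 3 a b) (Nat.pair 1 0)
def cItem (τ : CT) (a b : ℕ) : ℕ := cB 4 (cB 2 (cConj τ.1) a) (cB 3 (cDisj τ.2) b)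
def cE (N : ℕ) (ts : List (ℕ × CT)) : ℕ := cDisj (ts.map fun p => Nat.pair 0 (N + 1 + p.1))
def cV (N : ℕ) (τ : CT) (ts : List (ℕ × CT)) : ℕ :=
  cItem τ (cB 4 (cB 4 (cE N ts) (Nat.pair 0 N)) (cE N ts))
    (cDisj (ts.map fun p => cItem p.2 (cB 4 (cE N ts) (Nat.pair 0 N)) (Nat.pair 0 (N + 1 + p.1))))
def cW (N : ℕ) (τ : CT) (ts : List (ℕ × CT)) : ℕ :=
  cItem τ (cB 4 (Nat.pair 1 0) (Nat.pair 1 0)) (cDisj (ts.map fun p =>
    cItem p.2 (Nat.pair 0 (N + 1 + p.1))
      (cDisj (ts.flatMap fun p' => if p'.1 = p.1 then [] else [Nat.pair 0 (N + 1 + p'.1)]))))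

section
variable {α : Type} [Primcodable α]

@[fun_prop] theorem pr_cConj {f : α → List ℕ} (hf : Primrec f) : Primrec fun a => cConj (f a) := by
  unfold cConj
  fun_prop

@[fun_prop] theorem pr_cDisj {f : α → List ℕ} (hf : Primrec f) : Primrec fun a => cDisj (f a) := by
  unfold cDisj
  fun_prop

@[fun_prop] theorem pr_cItem {t : α → CT} {f g : α → ℕ} (ht : Primrec t) (hf : Primrec f)
    (hg : Primrec g) : Primrec fun a => cItem (t a) (f a) (g a) := by
  unfold cItem
  fun_prop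

@[fun_prop] theorem pr_cE {n : α → ℕ} {f : α → List (ℕ × CT)} (hn : Primrec n) (hf : Primrec f) :
    Primrec fun a => cE (n a) (f a) := by
  unfold cE
  fun_prop

@[fun_prop] theorem pr_cV {n : α → ℕ} {t : α → CT} {f : α → List (ℕ × CT)} (hn : Primrec n)
    (ht : Primrec t) (hf : Primrec f) : Primrec fun a => cV (n a) (t a) (f a) := by
  unfold cV
  fun_prop

@[fun_prop] theorem pr_cW {n : α → ℕ} {t : α → CT} {f : α → List (ℕ × CT)} (hn : Primrec n)
    (ht : Primrec t) (hf : Primrec f) : Primrec fun a => cW (n a) (t a) (f a) := by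
  unfold cW
  fun_prop

@[fun_prop] theorem pr_splits {f : α → List ℕ} (hf : Primrec f) :
    Primrec fun a => splits (f a) := by
  unfold splits
  fun_prop

@[fun_prop] theorem pr_asgs {i : α → List ℕ} {f : α → List CT} (hi : Primrec i) (hf : Primrec f) :
    Primrec fun a => asgs (i a) (f a) := by
  unfold asgs
  fun_prop

@[fun_prop] theorem sig_der {f g : α → ℕ} (hf : Primrec f) (hg : Primrec g) :
    Sig fun a => Gen RD (f a, g a) := sig_genD.comp (by fun_prop)

end

def cm (τ : Ty) : CT := (τ.1.map Fm.code, τ.2.map Fm.code)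

theorem code_conj (l : List Fm) : (conj l).code = cConj (l.map Fm.code) := by
  induction l with
  | nil => rfl
  | cons a l ih => rw [conj, code_and, ih]; rfl

theorem code_disj (l : List Fm) : (disj l).code = cDisj (l.map Fm.code) := by
  induction l with
  | nil => rfl
  | cons a l ih => rw [disj, code_or, ih]; rfl

theorem code_item (τ : Ty) (a b : Fm) : (item τ a b).code = cItem (cm τ) a.code b.code := by
  simp only [item, code_imp, code_and, code_or, code_conj, code_disj, cItem, cm]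

theorem code_ee (N i : ℕ) : (ee N i).code = Nat.pair 0 (N + 1 + i) := rfl
theorem code_var (N : ℕ) : (Fm.var N).code = Nat.pair 0 N := rfl

theorem code_bigE (N : ℕ) (ts : List (ℕ × Ty)) :
    (bigE N ts).code = cE N (ts.map fun p => (p.1, cm p.2)) := by
  simp only [bigE, cE, code_disj, List.map_map, Function.comp_def, code_ee]

theorem code_V (N : ℕ) (τ : Ty) (ts : List (ℕ × Ty)) :
    (certV N τ ts).code = cV N (cm τ) (ts.map fun p => (p.1, cm p.2)) := by
  simp only [certV, cV, code_item, code_imp, code_disj, code_bigE, List.map_map,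
    Function.comp_def, code_ee, code_var]

theorem code_W (N : ℕ) (τ : Ty) (ts : List (ℕ × Ty)) :
    (certW N τ ts).code = cW N (cm τ) (ts.map fun p => (p.1, cm p.2)) := by
  simp only [certW, cW, code_item, code_disj, List.map_map, Function.comp_def, code_ee,
    List.map_flatMap, List.flatMap_map, apply_ite (List.map Fm.code), List.map_nil,
    List.map_cons]
  rfl

/-- failure of the local conditions, on codes -/
def NLoc (l t : List ℕ) (I : List (List ℕ)) : Prop :=
  (∃ a, a ∈ l ∧ a ∈ t ∧ ∃ s, s ∈ I ∧ NM a s) ∨ (Nat.pair 1 0 ∈ l ∧ Nat.pair 1 0 ∈ t) ∨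
    ∃ a b : ℕ,
      (cB 2 a b ∈ l ∧ ((cB 2 a b ∈ t ∧ (NM a t ∨ NM b t)) ∨ (NM (cB 2 a b) t ∧ a ∈ t ∧ b ∈ t))) ∨
      (cB 3 a b ∈ l ∧ ((cB 3 a b ∈ t ∧ NM a t ∧ NM b t) ∨ (NM (cB 3 a b) t ∧ (a ∈ t ∨ b ∈ t)))) ∨
      (cB 4 a b ∈ l ∧ ((cB 4 a b ∈ t ∧ ((∃ s, s ∈ I ∧ NM (cB 4 a b) s) ∨ (a ∈ t ∧ NM b t))) ∨
        (NM (cB 4 a b) t ∧ BAll I (fun s => cB 4 a b ∈ s) ∧ (NM a t ∨ b ∈ t))))

@[fun_prop] theorem sig_NLoc {α : Type} [Primcodable α] {l t : α → List ℕ}
    {I : α → List (List ℕ)} (hl : Primrec l) (ht : Primrec t) (hI : Primrec I) :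
    Sig fun a => NLoc (l a) (t a) (I a) := by
  unfold NLoc
  fun_prop

theorem mem_code (a : Fm) (l : List Fm) : a.code ∈ l.map Fm.code ↔ a ∈ l :=
  List.mem_map_of_injective fun _ _ => code_inj

theorem nloc_iff (l t : List Fm) (I : List (List Fm)) :
    NLoc (l.map Fm.code) (t.map Fm.code) (I.map (List.map Fm.code)) ↔
      ¬ Loc l {a | a ∈ t} {a | ∀ s ∈ I, a ∈ s} := by
  have hI : ∀ a : Fm, (∃ s, s ∈ I.map (List.map Fm.code) ∧ NM a.code s) ↔ ¬ ∀ s ∈ I, a ∈ s := by
    intro a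
    simp only [List.mem_map, NM, exists_exists_and_eq_and, not_forall, exists_prop]
    exact exists_congr fun s => and_congr_right fun _ => not_congr
      ((List.mem_map (f := Fm.code)).symm.trans (mem_code a s))
  have hI' : ∀ a : Fm, BAll (I.map (List.map Fm.code)) (fun s => a.code ∈ s) ↔
      ∀ s ∈ I, a ∈ s := by
    intro a
    simp only [BAll, List.forall_mem_map, mem_code]
  constructor
  · rintro (⟨_, h1, h2, h3⟩ | ⟨h1, h2⟩ | ⟨a, b, ⟨h1, h2⟩ | ⟨h1, h2⟩ | ⟨h1, h2⟩⟩) h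
    · obtain ⟨a, ha, rfl⟩ := List.mem_map.1 h1
      exact (hI a).1 h3 (h.sub a ha ((mem_code _ _).1 h2))
    · exact h.bot ((mem_code .bot _).1 h1) ((mem_code .bot _).1 h2)
    · obtain ⟨c, hc, e⟩ := List.mem_map.1 h1
      obtain ⟨a, b, rfl, rfl, rfl⟩ := inv_and e
      have := h.and a b hc
      simp only [← code_and, NM, mem_code, Set.mem_ofPred_eq] at h2 this
      tauto
    · obtain ⟨c, hc, e⟩ := List.mem_map.1 h1
      obtain ⟨a, b, rfl, rfl, rfl⟩ := inv_or e
      have := h.or a b hc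
      simp only [← code_or, NM, mem_code, Set.mem_ofPred_eq] at h2 this
      tauto
    · obtain ⟨c, hc, e⟩ := List.mem_map.1 h1
      obtain ⟨a, b, rfl, rfl, rfl⟩ := inv_imp e
      have := h.imp a b hc
      simp only [← code_imp, hI, hI'] at h2
      simp only [NM, mem_code, Set.mem_ofPred_eq] at h2 this
      tauto
  · intro h
    by_contra hn
    simp only [NLoc, not_or, not_exists] at hn
    obtain ⟨n1, n2, n3⟩ := hn
    refine h ⟨fun a ha H => ?_, fun h1 h2 => n2 ⟨(mem_code .bot _).2 h1, (mem_code .bot _).2 h2⟩,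
      fun a b hab => ?_, fun a b hab => ?_, fun a b hab => ?_⟩
    · by_contra h3
      exact n1 a.code ⟨(mem_code _ _).2 ha, (mem_code _ _).2 H, (hI a).2 h3⟩
    · have := (n3 a.code b.code).1
      simp only [← code_and, NM, mem_code, Set.mem_ofPred_eq] at this ⊢
      tauto
    · have := (n3 a.code b.code).2.1
      simp only [← code_or, NM, mem_code, Set.mem_ofPred_eq] at this ⊢
      tauto
    · have := (n3 a.code b.code).2.2
      simp only [← code_imp, hI, hI'] at this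
      simp only [NM, mem_code, Set.mem_ofPred_eq] at this ⊢
      tauto

def GoodC (c : ℕ) (l : List ℕ) (τ : CT) (ts : List (ℕ × CT)) : Prop :=
  BAll (splits l) fun τ1 => BAll (splits l) fun τ2 =>
    NLoc l τ1.1 (ts.map fun p => p.2.1) ∨ NLoc l τ2.1 [τ.1, τ1.1] ∨ c ∈ τ2.1

@[fun_prop] theorem sig_GoodC {α : Type} [Primcodable α] {c : α → ℕ} {l : α → List ℕ}
    {t : α → CT} {ts : α → List (ℕ × CT)} (hc : Primrec c) (hl : Primrec l) (ht : Primrec t)
    (hs : Primrec ts) : Sig fun a => GoodC (c a) (l a) (t a) (ts a) := by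
  unfold GoodC
  fun_prop

theorem good_iff {l : List Fm} (hl : Cl l) {A : Fm} (hA : A ∈ l) (τ : Ty) (ts : List (ℕ × Ty)) :
    GoodC A.code (l.map Fm.code) (cm τ) (ts.map fun p => (p.1, cm p.2)) ↔ ¬ BadL l A τ ts := by
  have e1 : ((ts.map fun p => (p.1, cm p.2)).map fun p => p.2.1) =
      (ts.map fun p => p.2.1).map (List.map Fm.code) := by simp [cm]
  have e2 : ∀ t : List Fm, [(cm τ).1, t.map Fm.code] = [τ.1, t].map (List.map Fm.code) :=
    fun _ => rfl
  have e4 : ∀ t : List Fm, {a : Fm | ∀ s ∈ [τ.1, t], a ∈ s} = {a | a ∈ τ.1} ∩ {a | a ∈ t} := by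
    intro t
    ext a
    simp
  simp only [GoodC, BAll, splits_map, List.forall_mem_map, e1, e2, nloc_iff, mem_code, e4]
  constructor
  · rintro h ⟨t1, t2, h1, h2, h3⟩
    have a1 : ∀ t : Set Fm, Agree l t {a | a ∈ l.filter fun a => a ∈ t} := fun t a ha => by
      simp [ha]
    rcases h _ (filter_mem_splits (· ∈ t1) l) _ (filter_mem_splits (· ∈ t2) l) with h | h | h
    · exact h (h1.congr hl (a1 t1) (Agree.rfl' _ _))
    · exact h (h2.congr hl (a1 t2) ((Agree.rfl' _ _).inter (a1 t1)))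
    · exact h3 ((a1 t2 A hA).2 h)
  · intro h τ1 _ τ2 _
    by_contra hn
    simp only [not_or, not_not] at hn
    exact h ⟨_, _, hn.1, hn.2.1, hn.2.2⟩

def AVc (c : ℕ) : Prop :=
  ∃ (l : List ℕ) (N : ℕ), Gen RS (c, l) ∧ l.length ≤ N ∧
    BAll l (fun a => (∃ k m, a = Nat.pair (k + 1) m) ∨ ∃ p, a = Nat.pair 0 p ∧ p < N) ∧
    BAll (splits l) fun τ =>
      BAll (asgs (List.range N) (splits l)) (fun ts => GoodC c l τ ts ∨ Gen RD (c, cV N τ ts)) ∧
      BAll (asgs (List.range (N + 1)) (splits l))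
        fun ts => GoodC c l τ ts ∨ Gen RD (c, cW N τ ts)

theorem sig_AVc : Sig AVc := by
  have h : Sig fun x : (ℕ × List ℕ) × ℕ => Gen RS (x.1.1, x.1.2) := sig_genS.comp (by fun_prop)
  exact Sig.ex (Sig.ex (Sig.and h (by fun_prop)))

theorem cert_code {l : List Fm} (hl : Cl l) {A : Fm} (hA : A ∈ l) (N : ℕ) :
    (BAll (splits (l.map Fm.code)) fun τ =>
      BAll (asgs (List.range N) (splits (l.map Fm.code)))
        (fun ts => GoodC A.code (l.map Fm.code) τ ts ∨ Gen RD (A.code, cV N τ ts)) ∧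
      BAll (asgs (List.range (N + 1)) (splits (l.map Fm.code)))
        fun ts => GoodC A.code (l.map Fm.code) τ ts ∨ Gen RD (A.code, cW N τ ts)) ↔
      Cert (Logic A) l A N := by
  have e : splits (l.map Fm.code) = (splits l).map cm := splits_map _ _
  simp only [BAll, e, asgs_map, List.forall_mem_map, good_iff hl hA, ← code_V, ← code_W,
    genD_iff, Cert, ← imp_iff_not_or]

theorem avc_iff (c : ℕ) : AVc c ↔ ∃ A : Fm, A.code = c ∧
    ∀ Γ B, Admissible IPC Γ B → Admissible (Logic A) Γ B := by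
  have hv : ∀ (l : List Fm) (N : ℕ), BAll (l.map Fm.code)
      (fun a => (∃ k m, a = Nat.pair (k + 1) m) ∨ ∃ p, a = Nat.pair 0 p ∧ p < N) ↔
      ∀ p, Fm.var p ∈ l → p < N := by
    intro l N
    simp only [BAll, List.forall_mem_map]
    constructor
    · intro h p hp
      simpa [Fm.code] using h _ hp
    · intro h a ha
      cases a with
      | var p => exact Or.inr ⟨p, rfl, h p ha⟩
      | _ => exact Or.inl ⟨_, _, rfl⟩
  constructor
  · rintro ⟨l, N, h1, h2, h3, h4⟩
    obtain ⟨A, hA⟩ := (genS_iff _).1 h1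
    obtain ⟨rfl, rfl⟩ := Prod.mk.inj hA
    exact ⟨A, rfl, (adm_iff_cert (cl_subs A) (self_subs A)).2 ⟨N, by simpa using h2,
      (hv _ _).1 h3, (cert_code (cl_subs A) (self_subs A) N).1 h4⟩⟩
  · rintro ⟨A, rfl, h⟩
    obtain ⟨N, h1, h2, h3⟩ := (adm_iff_cert (cl_subs A) (self_subs A)).1 h
    exact ⟨_, N, (genS_iff _).2 ⟨A, rfl⟩, by simpa using h1, (hv _ _).2 h2,
      (cert_code (cl_subs A) (self_subs A) N).2 h3⟩

theorem av_re : REPred fun c : ℕ => ∃ A : Fm, A.code = c ∧
    ∀ Γ B, Admissible IPC Γ B → Admissible (Logic A) Γ B :=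
  (sig_AVc.of_eq avc_iff).re

open Nat.Partrec Nat.Partrec.Code in
theorem av_hard (Q : ℕ → Prop) (hQ : REPred Q) : ∃ f : ℕ → Fm, Primrec (fun n => (f n).code) ∧
    ∀ n, Q n ↔ ∀ Γ B, Admissible IPC Γ B → Admissible (Logic (f n)) Γ B := by
  have hp : Nat.Partrec fun n => (Part.assert (Q n) fun _ => Part.some ()).map fun _ => 0 :=
    Partrec.nat_iff.1 (Partrec.map hQ (Computable.const 0).to₂)
  obtain ⟨u, hu⟩ := exists_code.1 hp
  refine ⟨AA (full u) 4, AA_prim _ _, fun n => ?_⟩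
  have : Q n ↔ (eval u n).Dom := by simp [hu, Part.assert]
  rw [this, ← der_halt]
  refine ⟨fun h => admits_of_der h, fun h => ?_⟩
  by_contra hn
  exact not_admits (der_ex u) hn (h _ _ (visser_ipc 9))

end Pool.Agent.Lib.VR82
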